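import Mathlib
import Pool.Agent.W516.K3.Defs
import Pool.Agent.W516.KU.Defs

/-!
# Statements for the project on de Rham-Betti classes of abelian varieties with multiplication by a
CM field and signature (1, n - 1), (0, n), ..., (0, n) (project CMF)
-/

namespace Pool.Agent.W516.CMF

open Module TensorProduct Pool.Agent.W516.K3 Pool.Agent.W516.KU

/-- The hyperbolic part of the restriction to a stable subspace. -/
def S_HYPP : Prop :=
  ∀ (V T : Type) [AddCommGroup V] [Module ℝ V] [FiniteDimensional ℝ V]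
    [AddCommGroup T] [Module ℝ T] [FiniteDimensional ℝ T] (i : T →ₗ[ℝ] V), Function.Injective i →
    ∀ (y z : Module.End ℝ V) (y₁ z₁ : Module.End ℝ T), y * z = z * y → IsHyp y → NoRe z →
    y₁ * z₁ = z₁ * y₁ → IsHyp y₁ → NoRe z₁ → (∀ t, (y + z) (i t) = i ((y₁ + z₁) t)) →
    ∀ t, y (i t) = i (y₁ t)

/-- The restriction of an endomorphism to a stable subspace. -/
def S_RES : Prop :=
  ∀ (V T : Type) [AddCommGroup V] [Module ℝ V] [FiniteDimensional ℝ V]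
    [AddCommGroup T] [Module ℝ T] [FiniteDimensional ℝ T] (i : T →ₗ[ℝ] V), Function.Injective i →
    ∀ (x : Module.End ℝ V) (x₁ : Module.End ℝ T), (∀ t, x (i t) = i (x₁ t)) →
    (IsHyp x → IsHyp x₁) ∧ (NoRe x → NoRe x₁)

/-- A hyperbolic skew endomorphism vanishes on a stable anisotropic subspace. -/
def S_DEFN : Prop :=
  ∀ (V : Type) [AddCommGroup V] [Module ℝ V] [FiniteDimensional ℝ V]
    (b : V →ₗ[ℝ] V →ₗ[ℝ] ℝ) (y : Module.End ℝ V), (∀ u v, b (y u) v + b u (y v) = 0) → IsHyp y →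
    ∀ U : Submodule ℝ V, (∀ u ∈ U, y u ∈ U) → (∀ u ∈ U, u ≠ 0 → b u u ≠ 0) → ∀ u ∈ U, y u = 0

/-- The idempotent of a real place. -/
def S_EPS : Prop :=
  ∀ (k F : Type) [Field k] [CharZero k] [Field F] [Algebra k F] [FiniteDimensional k F]
    [Algebra k ℝ] (σ : F →ₐ[k] ℝ),
    ∃ ε : ℝ ⊗[k] F, ε ≠ 0 ∧ ε * ε = ε ∧
      ∀ a : F, ((1 : ℝ) ⊗ₜ[k] a) * ε = ((σ a) ⊗ₜ[k] (1 : F)) * ε

/-- The action of `ℝ ⊗ F` on `ℝ ⊗ W`. -/
noncomputable def act (k F W : Type) [Field k] [Field F] [Algebra k F] [Algebra k ℝ]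
    [AddCommGroup W] [Module k W] [Module F W] [IsScalarTower k F W] :
    ℝ ⊗[k] F →ₗ[ℝ] Module.End ℝ (ℝ ⊗[k] W) :=
  LinearMap.liftBaseChange ℝ
    ((LinearMap.baseChangeHom k ℝ W W) ∘ₗ (Algebra.lsmul k k W : F →ₐ[k] Module.End k W).toLinearMap)

/-- The action is multiplicative, the range of the idempotent is the eigenspace of the place, and
its dimension is the dimension over `F`. -/
def S_DIM : Prop :=
  ∀ (k F W : Type) [Field k] [CharZero k] [Field F] [Algebra k F] [FiniteDimensional k F]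
    [Algebra k ℝ] [AddCommGroup W] [Module k W] [FiniteDimensional k W] [Module F W]
    [IsScalarTower k F W],
    (∀ (r : ℝ) (a : F) (s : ℝ) (w : W), act k F W (r ⊗ₜ[k] a) (s ⊗ₜ[k] w) =
      (r * s) ⊗ₜ[k] (a • w)) ∧
    (∀ x y : ℝ ⊗[k] F, act k F W (x * y) = act k F W x * act k F W y) ∧
    ∀ (σ : F →ₐ[k] ℝ) (ε : ℝ ⊗[k] F), ε ≠ 0 → ε * ε = ε →
      (∀ a : F, ((1 : ℝ) ⊗ₜ[k] a) * ε = ((σ a) ⊗ₜ[k] (1 : F)) * ε) →
      finrank ℝ (LinearMap.range (act k F W ε)) = finrank F W ∧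
      (∀ a : F, ∃ lam : ℝ →ₗ[k] k, (TensorProduct.lid k F) (LinearMap.rTensor F lam ε) = a)

/-- An ideal of the special unitary Lie algebra which contains `xx e f` is the whole algebra. -/
def S_IDL : Prop :=
  ∀ (T : Type) [AddCommGroup T] [Module ℝ T] [FiniteDimensional ℝ T]
    (b : T →ₗ[ℝ] T →ₗ[ℝ] ℝ) (J : Module.End ℝ T) (g g₁ : Submodule ℝ (Module.End ℝ T)),
    Herm b J → (∀ x ∈ g₁, ∀ y ∈ g₁, x * y - y * x ∈ g₁) →
    (∀ x ∈ g₁, ∀ y ∈ g, x * y - y * x ∈ g₁) →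
    (∀ x : Module.End ℝ T, (∀ u v, b (x u) v + b u (x v) = 0) → x * J = J * x →
      LinearMap.trace ℝ T (x * J) = 0 → x ∈ g) →
    ∀ e f : T, HypJ b J e f → xx b J e f ∈ g₁ →
    ∀ x : Module.End ℝ T, (∀ u v, b (x u) v + b u (x v) = 0) → x * J = J * x →
      LinearMap.trace ℝ T (x * J) = 0 → x ∈ g₁

end Pool.Agent.W516.CMF
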