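import Mathlib
import Pool.Agent.W516.KU.Real
import Pool.Agent.W516.CMF.Defs

/-!
# The alternative for a real Lie algebra acting on a stable subspace
-/

set_option autoImplicit false
set_option linter.unusedSectionVars false

namespace Pool.Agent.W516.CMF

open Module TensorProduct Pool.Agent.W516.K3 Pool.Agent.W516.KU

variable {V T : Type} [AddCommGroup V] [Module ℝ V] [FiniteDimensional ℝ V]
  [AddCommGroup T] [Module ℝ T] [FiniteDimensional ℝ T]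

/-- The image of the Lie algebra in the endomorphisms of the stable subspace. -/
def gT (g : Submodule ℝ (Module.End ℝ V)) (i : T →ₗ[ℝ] V) : Submodule ℝ (Module.End ℝ T) where
  carrier := {x₁ | ∃ x ∈ g, ∀ t, x (i t) = i (x₁ t)}
  zero_mem' := ⟨0, g.zero_mem, fun t => by simp⟩
  add_mem' := by
    rintro x₁ y₁ ⟨x, hx, hx1⟩ ⟨y, hy, hy1⟩
    exact ⟨x + y, g.add_mem hx hy, fun t => by
      rw [LinearMap.add_apply, hx1, hy1, LinearMap.add_apply, map_add]⟩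
  smul_mem' := by
    rintro c x₁ ⟨x, hx, hx1⟩
    exact ⟨c • x, g.smul_mem c hx, fun t => by
      rw [LinearMap.smul_apply, hx1, LinearMap.smul_apply, map_smul]⟩

/-- The endomorphisms of the subspace whose extension by zero is in the Lie algebra. -/
def g1 (g : Submodule ℝ (Module.End ℝ V)) (i : T →ₗ[ℝ] V) (p : V →ₗ[ℝ] T) :
    Submodule ℝ (Module.End ℝ T) where
  carrier := {x₁ | (i ∘ₗ x₁ ∘ₗ p : Module.End ℝ V) ∈ g}
  zero_mem' := by
    change (i ∘ₗ (0 : Module.End ℝ T) ∘ₗ p : Module.End ℝ V) ∈ g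
    rw [LinearMap.zero_comp, LinearMap.comp_zero]
    exact g.zero_mem
  add_mem' := by
    intro x₁ y₁ hx hy
    change (i ∘ₗ (x₁ + y₁) ∘ₗ p : Module.End ℝ V) ∈ g
    rw [LinearMap.add_comp, LinearMap.comp_add]
    exact g.add_mem hx hy
  smul_mem' := by
    intro c x₁ hx
    change (i ∘ₗ (c • x₁) ∘ₗ p : Module.End ℝ V) ∈ g
    rw [LinearMap.smul_comp, LinearMap.comp_smul]
    exact g.smul_mem c hx

variable (b : V →ₗ[ℝ] V →ₗ[ℝ] ℝ) (J : Module.End ℝ T) (g : Submodule ℝ (Module.End ℝ V))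
  (i : T →ₗ[ℝ] V) (p : V →ₗ[ℝ] T)

/-- The form on the subspace. -/
def bT (b : V →ₗ[ℝ] V →ₗ[ℝ] ℝ) (i : T →ₗ[ℝ] V) : T →ₗ[ℝ] T →ₗ[ℝ] ℝ := b.compl₁₂ i i

theorem bT_apply (u v : T) : bT b i u v = b (i u) (i v) := rfl

variable (hpi : ∀ t, p (i t) = t) (hge : ∀ x ∈ g, ∀ v, x (i (p v)) = i (p (x v)))
  (hskew : ∀ x ∈ g, ∀ u v, b (x u) v + b u (x v) = 0)
  (hbr : ∀ x ∈ g, ∀ y ∈ g, x * y - y * x ∈ g)
  (hhyp : ∀ y z : Module.End ℝ V, y + z ∈ g → y * z = z * y → IsHyp y → NoRe z → y ∈ g)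

include hpi in
theorem inj_i : Function.Injective i := fun s t h => by rw [← hpi s, h, hpi]

include hpi hge in
theorem stab {x : Module.End ℝ V} (hx : x ∈ g) (t : T) : x (i t) = i ((p ∘ₗ x ∘ₗ i) t) := by
  have h1 := hge x hx (i t)
  rw [hpi] at h1
  exact h1

include hpi hhyp in
/-- The image is closed under hyperbolic parts. -/
theorem hyp_gT (hS : S_SPLIT) (hH : S_HYPP) (y₁ z₁ : Module.End ℝ T) (h : y₁ + z₁ ∈ gT g i)
    (hc : y₁ * z₁ = z₁ * y₁) (hy : IsHyp y₁) (hz : NoRe z₁) : y₁ ∈ gT g i := by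
  obtain ⟨X, hX, hXi⟩ := h
  obtain ⟨Y, Z, hYZ, hYc, hYh, hZn⟩ := hS V X
  have hYg : Y ∈ g := hhyp Y Z (hYZ ▸ hX) hYc hYh hZn
  refine ⟨Y, hYg, fun t => ?_⟩
  exact hH V T i (inj_i i p hpi) Y Z y₁ z₁ hYc hYh hZn hc hy hz (fun t => by rw [← hYZ, hXi]) t

include hpi hge hskew hbr hhyp in
/-- The alternative. -/
theorem real_altT (hPF : KU.S_PF) (hCAS : KU.S_CAS) (hSPLIT : S_SPLIT) (hNORM : KU.S_NORM)
    (hDU : S_DU) (hUA : S_UA) (hUE : S_UE) (hUB : S_UB) (hRES : S_RES) (hDEFN : S_DEFN)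
    (hIDL : S_IDL) (hg : GoodJ (bT b i) J (gT g i)) (h5 : 5 ≤ finrank ℝ T)
    (hpos : ∃ v, 0 < bT b i v v) (hneg : ∃ v, bT b i v v < 0)
    (hdef : ∀ u, p u = 0 → u ≠ 0 → b u u ≠ 0) :
    (∀ x : Module.End ℝ T, (∀ u v, bT b i (x u) v + bT b i u (x v) = 0) → x * J = J * x →
      LinearMap.trace ℝ T (x * J) = 0 → (i ∘ₗ x ∘ₗ p : Module.End ℝ V) ∈ g) ∨
    (∃ V₀ : Submodule ℝ T, IsCompl V₀ (V₀.map J) ∧ (∀ u ∈ V₀, ∀ v ∈ V₀, bT b i u (J v) = 0) ∧
      ∀ x ∈ gT g i, ∃ c : ℝ, ∀ v ∈ V₀, (x - c • J) v ∈ V₀) := by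
  rcases real_alt hPF hCAS hSPLIT hNORM hDU hUA hUE hUB hg h5 hpos hneg with h | h
  · left
    have hi := inj_i i p hpi
    obtain ⟨x0, hx0, hx0n⟩ := hyp_exists hPF hCAS hg hpos hneg
    obtain ⟨X, hX, hXi⟩ := hx0
    obtain ⟨Y, Z, hYZ, hYc, hYh, hZn⟩ := hSPLIT V X
    have hYg : Y ∈ g := hhyp Y Z (hYZ ▸ hX) hYc hYh hZn
    have hYi := stab g i p hpi hge hYg
    set y₁ : Module.End ℝ T := p ∘ₗ Y ∘ₗ i with hy₁
    have hZi : ∀ t, Z (i t) = i ((x0 - y₁) t) := by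
      intro t
      have h1 := hXi t
      rw [hYZ, LinearMap.add_apply, hYi] at h1
      rw [LinearMap.sub_apply, map_sub, ← h1, add_sub_cancel_left]
    have hyh : IsHyp y₁ := (hRES V T i hi Y y₁ hYi).1 hYh
    have hzn : NoRe (x0 - y₁) := (hRES V T i hi Z (x0 - y₁) hZi).2 hZn
    have hy0 : y₁ ≠ 0 := by
      intro h0
      rw [h0, sub_zero] at hzn
      exact hx0n hzn
    have hy₁g : y₁ ∈ gT g i := ⟨Y, hYg, hYi⟩
    -- `Y` vanishes on the complement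
    have hYker : ∀ u, p u = 0 → Y u = 0 := by
      intro u hu
      refine hDEFN V b Y (hskew Y hYg) hYh (LinearMap.ker p) ?_ ?_ u hu
      · intro v hv
        rw [LinearMap.mem_ker] at hv ⊢
        have h1 := hge Y hYg v
        rw [hv, map_zero, map_zero] at h1
        exact hi (by rw [← h1, map_zero])
      · intro v hv hv0
        exact hdef v hv hv0
    have hYeq : (i ∘ₗ y₁ ∘ₗ p : Module.End ℝ V) = Y := by
      refine LinearMap.ext fun v => ?_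
      have h1 : Y (v - i (p v)) = 0 := hYker _ (by rw [map_sub, hpi, sub_self])
      rw [map_sub, sub_eq_zero] at h1
      rw [LinearMap.comp_apply, LinearMap.comp_apply, ← hYi, ← h1]
    obtain ⟨e, f, a, ha, hHJ, hya⟩ := hNORM T (bT b i) J hg.herm hg.witt y₁ (hg.skew y₁ hy₁g)
      (hg.commJ y₁ hy₁g) hyh hy0
    have hh : xx (bT b i) J e f ∈ g1 g i p := by
      have h1 : xx (bT b i) J e f = a⁻¹ • y₁ := by
        rw [hya, smul_smul, inv_mul_cancel₀ ha, one_smul]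
      rw [h1]
      refine Submodule.smul_mem _ _ ?_
      change (i ∘ₗ y₁ ∘ₗ p : Module.End ℝ V) ∈ g
      rw [hYeq]
      exact hYg
    refine hIDL T (bT b i) J (gT g i) (g1 g i p) hg.herm ?_ ?_ h e f hHJ hh
    · intro x hx y hy
      have h1 : (i ∘ₗ (x * y - y * x) ∘ₗ p : Module.End ℝ V) =
          (i ∘ₗ x ∘ₗ p : Module.End ℝ V) * (i ∘ₗ y ∘ₗ p : Module.End ℝ V) -
            (i ∘ₗ y ∘ₗ p : Module.End ℝ V) * (i ∘ₗ x ∘ₗ p : Module.End ℝ V) := by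
        refine LinearMap.ext fun v => ?_
        simp only [LinearMap.comp_apply, LinearMap.sub_apply, Module.End.mul_apply, map_sub, hpi]
      change (i ∘ₗ (x * y - y * x) ∘ₗ p : Module.End ℝ V) ∈ g
      rw [h1]
      exact hbr _ hx _ hy
    · rintro x hx y₂ ⟨y, hy, hyi⟩
      have hpy : ∀ v, p (y v) = y₂ (p v) := by
        intro v
        apply hi
        rw [← hge y hy, hyi]
      have h1 : (i ∘ₗ (x * y₂ - y₂ * x) ∘ₗ p : Module.End ℝ V) =
          (i ∘ₗ x ∘ₗ p : Module.End ℝ V) * y - y * (i ∘ₗ x ∘ₗ p : Module.End ℝ V) := by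
        refine LinearMap.ext fun v => ?_
        simp only [LinearMap.comp_apply, LinearMap.sub_apply, Module.End.mul_apply, map_sub, hpy,
          hyi]
      change (i ∘ₗ (x * y₂ - y₂ * x) ∘ₗ p : Module.End ℝ V) ∈ g
      rw [h1]
      exact hbr _ hx _ hy
  · right
    exact h

end Pool.Agent.W516.CMF
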