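import Mathlib
import Pool.Agent.W516.BQ.Main
import Pool.Agent.W516.CMF.Real

/-!
# De Rham-Betti forms on a hermitian space over a CM field
-/

set_option linter.unusedSectionVars false

namespace Pool.Agent.W516.CMF

open Module TensorProduct Pool.Agent.H204R3.SP Pool.Agent.H204R3.GP Pool.Agent.W516.DR
  Pool.Agent.W516.KC Pool.Agent.W516.K3 Pool.Agent.W32.DK Pool.Agent.W516.KU Pool.Agent.W516.BQ

noncomputable section

variable {k K : Type} [Field k] [Field K] [CharZero k] [CharZero K] [IsAlgClosed K] [Algebra k K]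
  [Algebra k ℂ] [Algebra K ℂ] [IsScalarTower k K ℂ] [Algebra k ℝ] [IsScalarTower k ℝ ℂ]
  {F : Type} [Field F] [Algebra k F] [FiniteDimensional k F]
  {W : Type} [AddCommGroup W] [Module k W] [FiniteDimensional k W] [Nontrivial W]
  [Module F W] [IsScalarTower k F W]
  {ι : Type} [Fintype ι] [DecidableEq ι]
  (ξ : Basis ι ℂ (W →ₗ[k] ℂ)) (b : W →ₗ[k] W →ₗ[k] k) (δ : Module.End k W)

/-- The multiplication by an element of `F`. -/
def mF (k W : Type) {F : Type} [Field k] [Field F] [Algebra k F] [AddCommGroup W] [Module k W]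
    [Module F W] [IsScalarTower k F W] (a : F) : Module.End k W := Algebra.lsmul k k W a

theorem mF_apply (a : F) (w : W) : mF k W a w = a • w := rfl

/-! ### Commutation -/

variable (hb : IsDRBForm K (ξ : ι → (W →ₗ[k] ℂ)) (one2 b))
  (hnd : ∀ u, (∀ v, b u v = 0) → u = 0)

include hb in
theorem drb_bP (P : Module.End k W) (hP : IsDeRhamBettiEnd K (ξ : ι → (W →ₗ[k] ℂ)) P) :
    IsDRBForm K (ξ : ι → (W →ₗ[k] ℂ)) (one2 (b ∘ₗ P)) := by
  rw [drb0_iff ξ (Module.finBasis k W)]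
  intro D lam
  rw [kills_one2]
  intro u v
  have h1 := skewY (K := K) ξ b hb D lam (P u) v
  have h2 := congrArg (fun Q : Module.End k W => Q u) (Y0_comm (K := K) ξ P hP D lam)
  simp only [Module.End.mul_apply] at h2
  rw [h2] at h1
  exact h1

include hb hnd in
theorem gR_commP (P : Module.End k W) (hP : IsDeRhamBettiEnd K (ξ : ι → (W →ₗ[k] ℂ)) P)
    {x : Module.End ℝ (ℝ ⊗[k] W)} (hx : x ∈ gR (K := K) ξ) :
    x * P.baseChange ℝ = P.baseChange ℝ * x := by
  have h1 := hx _ _ (drb_bP (K := K) ξ b hb P hP)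
  have h2 : bcm (Ω := ℝ) (Module.finBasis k W) (one2 (b ∘ₗ P)) = one2 (bx ℝ (b ∘ₗ P)) :=
    MultilinearMap.ext fun v => bcm_one2 (b ∘ₗ P) _ v
  rw [h2, kills_one2] at h1
  refine LinearMap.ext fun u => ?_
  rw [Module.End.mul_apply, Module.End.mul_apply, ← sub_eq_zero]
  refine bx_nondeg b ℝ hnd _ fun v => ?_
  have h3 := h1 u v
  rw [bx_comp, bx_comp] at h3
  have h4 := gR_skewB (K := K) ξ b hb hx (P.baseChange ℝ u) v
  rw [map_sub, LinearMap.sub_apply]
  linarith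

variable (hss : DeRhamBettiSemisimple K (ξ : ι → (W →ₗ[k] ℂ)))
  (hend : ∀ P : Module.End k W, IsDeRhamBettiEnd K (ξ : ι → (W →ₗ[k] ℂ)) P →
    ∃ a c : F, ∀ u, P u = a • u + c • δ u)

include hss hend in
/-- The real endomorphisms commuting with the multiplications are generated by the logarithmic
derivatives. -/
theorem endE_mem (X : Module.End ℝ (ℝ ⊗[k] W))
    (hXF : ∀ a : F, X * (mF k W a).baseChange ℝ = (mF k W a).baseChange ℝ * X)
    (hXδ : X * δ.baseChange ℝ = δ.baseChange ℝ * X) :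
    X ∈ Algebra.adjoin ℝ {Z : Module.End ℝ (ℝ ⊗[k] W) |
      ∃ (D : Derivation K ℂ ℂ) (lam : ℂ →ₗ[k] k), Z = (Y0 ξ D lam).baseChange ℝ} := by
  have h1 : X ∈ extEnd ℝ (fun x : W →ₗ[k] W => (∀ a : F, (x : Module.End k W) * mF k W a =
      mF k W a * x) ∧ (x : Module.End k W) * δ = δ * x) :=
    end_mem_span _ X fun lam => ⟨fun a => comm_cmp (hXF a) lam, comm_cmp hXδ lam⟩
  unfold extEnd at h1
  have h3 : Submodule.span ℝ {P | ∃ P₀ : W →ₗ[k] W, ((∀ a : F, (P₀ : Module.End k W) * mF k W a =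
      mF k W a * P₀) ∧ (P₀ : Module.End k W) * δ = δ * P₀) ∧ P = P₀.baseChange ℝ} ≤
      Subalgebra.toSubmodule (Algebra.adjoin ℝ {Z : Module.End ℝ (ℝ ⊗[k] W) |
      ∃ (D : Derivation K ℂ ℂ) (lam : ℂ →ₗ[k] k), Z = (Y0 ξ D lam).baseChange ℝ}) := by
    rw [Submodule.span_le]
    rintro _ ⟨x, ⟨hx1, hx2⟩, rfl⟩
    have h4 : x ∈ Algebra.adjoin k
        {Z | ∃ (D : Derivation K ℂ ℂ) (lam : ℂ →ₗ[k] k), Z = Y0 ξ D lam} := by
      refine mem_of_comm (K := K) ξ hss _ fun P hP => ?_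
      obtain ⟨a, c, hac⟩ := hend P hP
      refine LinearMap.ext fun u => ?_
      have h5 := congrArg (fun Q : Module.End k W => Q u) (hx1 a)
      have h6 := congrArg (fun Q : Module.End k W => Q (δ u)) (hx1 c)
      have h7 := congrArg (fun Q : Module.End k W => Q u) hx2
      simp only [Module.End.mul_apply, mF_apply] at h5 h6 h7
      rw [Module.End.mul_apply, Module.End.mul_apply, hac, hac, map_add, h5, h6, h7]
    have h5 := Pool.Agent.W52.KU.T_ADJ k ℝ W _ _ h4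
    have h6 : {Z : Module.End ℝ (ℝ ⊗[k] W) | ∃ Z₀ ∈ {Z | ∃ (D : Derivation K ℂ ℂ)
        (lam : ℂ →ₗ[k] k), Z = Y0 ξ D lam}, Z = Z₀.baseChange ℝ} =
        {Z | ∃ (D : Derivation K ℂ ℂ) (lam : ℂ →ₗ[k] k), Z = (Y0 ξ D lam).baseChange ℝ} := by
      ext Z
      constructor
      · rintro ⟨_, ⟨D, lam, rfl⟩, rfl⟩
        exact ⟨D, lam, rfl⟩
      · rintro ⟨D, lam, rfl⟩
        exact ⟨_, ⟨D, lam, rfl⟩, rfl⟩
    rw [h6] at h5
    exact h5
  exact h3 h1

/-! ### The eigenspace of the place -/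

variable (hA1 : ∀ (r : ℝ) (a : F) (s : ℝ) (w : W), act k F W (r ⊗ₜ[k] a) (s ⊗ₜ[k] w) =
    (r * s) ⊗ₜ[k] (a • w))
  (hA2 : ∀ x y : ℝ ⊗[k] F, act k F W (x * y) = act k F W x * act k F W y)
  (σ : F →ₐ[k] ℝ) (ε : ℝ ⊗[k] F) (hε0 : ε ≠ 0) (hε : ε * ε = ε)
  (hεσ : ∀ a : F, ((1 : ℝ) ⊗ₜ[k] a) * ε = ((σ a) ⊗ₜ[k] (1 : F)) * ε)

include hA1 in
theorem act_one (a : F) : act k F W ((1 : ℝ) ⊗ₜ[k] a) = (mF k W a).baseChange ℝ := by
  refine (Module.finBasis k W).baseChange ℝ |>.ext fun j => ?_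
  rw [Basis.baseChange_apply, hA1, LinearMap.baseChange_tmul, mF_apply, one_mul]

include hA1 in
theorem act_real (r : ℝ) (a : F) : act k F W (r ⊗ₜ[k] a) = r • (mF k W a).baseChange ℝ := by
  have h1 : r ⊗ₜ[k] a = r • ((1 : ℝ) ⊗ₜ[k] a) := by
    rw [TensorProduct.smul_tmul', smul_eq_mul, mul_one]
  rw [h1, map_smul, act_one hA1]

include hA1 in
/-- What commutes with `F` commutes with the action. -/
theorem act_comm (X : Module.End ℝ (ℝ ⊗[k] W))
    (hXF : ∀ a : F, X * (mF k W a).baseChange ℝ = (mF k W a).baseChange ℝ * X) (x : ℝ ⊗[k] F) :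
    X * act k F W x = act k F W x * X := by
  induction x using TensorProduct.induction_on with
  | zero => rw [map_zero, mul_zero, zero_mul]
  | add x y hx hy => rw [map_add, mul_add, add_mul, hx, hy]
  | tmul r a => rw [act_real hA1, mul_smul_comm, smul_mul_assoc, hXF]

theorem bx_mF (hF : ∀ (a : F) u v, b (a • u) v = b u (a • v)) (a : F) (u v : ℝ ⊗[k] W) :
    bx ℝ b ((mF k W a).baseChange ℝ u) v = bx ℝ b u ((mF k W a).baseChange ℝ v) := by
  induction u using TensorProduct.induction_on with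
  | zero => simp only [map_zero, LinearMap.zero_apply]
  | add x y hx hy => simp only [map_add, LinearMap.add_apply, hx, hy]
  | tmul r w =>
    induction v using TensorProduct.induction_on with
    | zero => simp only [map_zero]
    | add x y hx hy => simp only [map_add, hx, hy]
    | tmul s w' =>
      rw [LinearMap.baseChange_tmul, LinearMap.baseChange_tmul,
        LinearMap.BilinForm.baseChange_tmul, LinearMap.BilinForm.baseChange_tmul, mF_apply,
        mF_apply, hF]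

include hA1 in
theorem bx_act (hF : ∀ (a : F) u v, b (a • u) v = b u (a • v)) (x : ℝ ⊗[k] F)
    (u v : ℝ ⊗[k] W) : bx ℝ b (act k F W x u) v = bx ℝ b u (act k F W x v) := by
  induction x using TensorProduct.induction_on with
  | zero => simp only [map_zero, LinearMap.zero_apply]
  | add x y hx hy => simp only [map_add, LinearMap.add_apply, hx, hy]
  | tmul r a =>
    rw [act_real hA1, LinearMap.smul_apply, LinearMap.smul_apply, map_smul, LinearMap.smul_apply,
      map_smul, bx_mF b hF]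


variable {T : Type} [AddCommGroup T] [Module ℝ T] [FiniteDimensional ℝ T]
  (i : T →ₗ[ℝ] ℝ ⊗[k] W) (p : ℝ ⊗[k] W →ₗ[ℝ] T) (hpi : ∀ t, p (i t) = t)
  (hip : ∀ v, i (p v) = act k F W ε v)

include hpi hip in
theorem e_i (t : T) : act k F W ε (i t) = i t := by
  rw [← hip, hpi]

include hA1 hA2 hεσ hpi hip in
theorem mF_i (a : F) (t : T) : (mF k W a).baseChange ℝ (i t) = σ a • i t := by
  have h1 := congrArg (fun x => act k F W x (i t)) (hεσ a)
  simp only [hA2, Module.End.mul_apply, e_i ε i p hpi hip, act_one hA1, act_real hA1] at h1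
  rw [h1, LinearMap.smul_apply]
  congr 1
  have h2 : (mF k W (1 : F)) = 1 := LinearMap.ext fun w => one_smul F w
  rw [h2, bc_one, Module.End.one_apply]

/-! ### The complex structure -/

variable (hsym : ∀ u v, b u v = b v u)
  (hF : ∀ (a : F) u v, b (a • u) v = b u (a • v)) (hδF : ∀ (a : F) u, δ (a • u) = a • δ u)
  (d : F) (hδδ : ∀ u, δ (δ u) = -(d • u)) (hδb : ∀ u v, b (δ u) v = -b u (δ v)) (hσd : 0 < σ d)

include hδF in
theorem d_mF (a : F) : δ.baseChange ℝ * (mF k W a).baseChange ℝ =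
    (mF k W a).baseChange ℝ * δ.baseChange ℝ := by
  have h1 : δ * mF k W a = mF k W a * δ := LinearMap.ext fun u => hδF a u
  have h2 := congrArg (fun P : Module.End k W => P.baseChange ℝ) h1
  simp only [bc_mul] at h2
  exact h2

include hδF hA1 in
theorem d_act (x : ℝ ⊗[k] F) (v : ℝ ⊗[k] W) :
    δ.baseChange ℝ (act k F W x v) = act k F W x (δ.baseChange ℝ v) :=
  congrArg (fun P : Module.End ℝ (ℝ ⊗[k] W) => P v)
    (act_comm hA1 (δ.baseChange ℝ) (d_mF δ hδF) x)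

theorem dd_R (hδδ : ∀ u, δ (δ u) = -(d • u)) (v : ℝ ⊗[k] W) :
    δ.baseChange ℝ (δ.baseChange ℝ v) = -((mF k W d).baseChange ℝ v) := by
  induction v with
  | zero => simp only [map_zero, neg_zero]
  | add x y hx hy => rw [map_add, map_add, hx, hy, map_add, neg_add]
  | tmul a t =>
    rw [LinearMap.baseChange_tmul, LinearMap.baseChange_tmul, LinearMap.baseChange_tmul, hδδ,
      mF_apply, TensorProduct.tmul_neg]

/-- The complex structure on the eigenspace. -/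
def JT (σ : F →ₐ[k] ℝ) (d : F) (δ : Module.End k W) (i : T →ₗ[ℝ] ℝ ⊗[k] W)
    (p : ℝ ⊗[k] W →ₗ[ℝ] T) : Module.End ℝ T :=
  (Real.sqrt (σ d))⁻¹ • (p ∘ₗ δ.baseChange ℝ ∘ₗ i)

include hA1 hpi hip hδF in
theorem i_JT (t : T) : i (JT σ d δ i p t) = (Real.sqrt (σ d))⁻¹ • δ.baseChange ℝ (i t) := by
  rw [JT, LinearMap.smul_apply, map_smul, LinearMap.comp_apply, LinearMap.comp_apply, hip,
    ← d_act δ hA1 hδF, e_i ε i p hpi hip]

include hA1 hF hpi hip in
theorem bx_i (t : T) (v : ℝ ⊗[k] W) : bx ℝ b (i t) v = bT (bx ℝ b) i t (p v) := by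
  rw [bT_apply, hip, ← bx_act b hA1 hF, e_i ε i p hpi hip]

include hA1 hA2 hpi hip hεσ hsym hnd hF hδF hδδ hδb hσd in
theorem herm_JT : Herm (bT (bx ℝ b) i) (JT σ d δ i p) := by
  have hi := inj_i i p hpi
  have hs : (Real.sqrt (σ d))⁻¹ * (Real.sqrt (σ d))⁻¹ = (σ d)⁻¹ := by
    rw [← mul_inv, Real.mul_self_sqrt hσd.le]
  refine ⟨fun u v => bx_symm b ℝ hsym _ _, fun u hu => ?_, ?_, fun u v => ?_⟩
  · apply hi
    rw [map_zero]
    refine bx_nondeg b ℝ hnd _ fun v => ?_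
    rw [bx_i b hA1 ε i p hpi hip hF]
    exact hu _
  · refine LinearMap.ext fun t => hi ?_
    rw [Module.End.mul_apply, i_JT δ hA1 σ ε i p hpi hip hδF, i_JT δ hA1 σ ε i p hpi hip hδF,
      map_smul, smul_smul, hs, dd_R δ d hδδ, mF_i hA1 hA2 σ ε hεσ i p hpi hip, smul_neg,
      smul_smul, inv_mul_cancel₀ hσd.ne', one_smul, LinearMap.neg_apply, map_neg,
      Module.End.one_apply]
  · rw [bT_apply, bT_apply, i_JT δ hA1 σ ε i p hpi hip hδF, i_JT δ hA1 σ ε i p hpi hip hδF,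
      map_smul, map_smul, LinearMap.smul_apply, smul_smul, hs, bx_delta b δ hδb, dd_R δ d hδδ,
      map_neg, neg_neg, mF_i hA1 hA2 σ ε hεσ i p hpi hip, map_smul, smul_smul,
      inv_mul_cancel₀ hσd.ne', one_smul]

/-- The negative definite part. -/
theorem neg_of_orth {V : Type} [AddCommGroup V] [Module ℝ V] [FiniteDimensional ℝ V]
    (B : V →ₗ[ℝ] V →ₗ[ℝ] ℝ) (hB : ∀ u v, B u v = B v u) (hs : SignatureTwo B) (v₀ v₁ u : V)
    (h0 : 0 < B v₀ v₀) (h1 : 0 < B v₁ v₁) (h01 : B v₀ v₁ = 0) (hu0 : B u v₀ = 0)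
    (hu1 : B u v₁ = 0) (hu : u ≠ 0) : B u u < 0 := by
  by_contra hcon
  push Not at hcon
  obtain ⟨P, N, hc, hP, -, hN⟩ := hs
  have hli : LinearIndependent ℝ ![v₀, v₁, u] := by
    rw [Fintype.linearIndependent_iff]
    intro c hc
    rw [Fin.sum_univ_three] at hc
    simp only [Matrix.cons_val_zero, Matrix.cons_val_one, Matrix.cons_val] at hc
    have e0 := congrArg (fun w => B w v₀) hc
    have e1 := congrArg (fun w => B w v₁) hc
    simp only [map_add, map_smul, LinearMap.add_apply, LinearMap.smul_apply, map_zero,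
      LinearMap.zero_apply, smul_eq_mul, h01, hB v₁ v₀, hu0, hu1, mul_zero, add_zero,
      zero_add] at e0 e1
    have f0 : c 0 = 0 := (mul_eq_zero.1 e0).resolve_right h0.ne'
    have f1 : c 1 = 0 := (mul_eq_zero.1 e1).resolve_right h1.ne'
    rw [f0, f1, zero_smul, zero_smul, zero_add, zero_add] at hc
    have f2 : c 2 = 0 := (smul_eq_zero.1 hc).resolve_right hu
    intro j
    fin_cases j
    · exact f0
    · exact f1
    · exact f2
  have hdim := finrank_span_eq_card hli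
  rw [Fintype.card_fin] at hdim
  have hadd := Submodule.finrank_add_eq_of_isCompl hc
  have hnd : ¬ Disjoint (Submodule.span ℝ (Set.range ![v₀, v₁, u])) N := by
    intro hd
    have h2 := Submodule.finrank_add_finrank_le_of_disjoint hd
    omega
  apply hnd
  rw [Submodule.disjoint_def]
  intro w hw hwN
  by_contra hw0
  have h3 := hN w hwN hw0
  obtain ⟨c, rfl⟩ := (Submodule.mem_span_range_iff_exists_fun ℝ).1 hw
  rw [Fin.sum_univ_three] at h3
  simp only [Matrix.cons_val_zero, Matrix.cons_val_one, Matrix.cons_val] at h3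
  simp only [map_add, map_smul, LinearMap.add_apply, LinearMap.smul_apply, smul_eq_mul, h01,
    hB v₁ v₀, hu0, hu1, hB v₀ u, hB v₁ u, mul_zero, add_zero, zero_add] at h3
  nlinarith [mul_nonneg (mul_self_nonneg (c 0)) h0.le, mul_nonneg (mul_self_nonneg (c 1)) h1.le,
    mul_nonneg (mul_self_nonneg (c 2)) hcon]

variable (hdF : ∀ a : F, IsDeRhamBettiEnd K (ξ : ι → (W →ₗ[k] ℂ)) (mF k W a))
  (hδ : IsDeRhamBettiEnd K (ξ : ι → (W →ₗ[k] ℂ)) δ)

include hA1 hb hnd hdF in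
theorem gR_act {x : Module.End ℝ (ℝ ⊗[k] W)} (hx : x ∈ gR (K := K) ξ) (y : ℝ ⊗[k] F)
    (v : ℝ ⊗[k] W) : x (act k F W y v) = act k F W y (x v) :=
  congrArg (fun P : Module.End ℝ (ℝ ⊗[k] W) => P v)
    (act_comm hA1 x (fun a => gR_commP (K := K) ξ b hb hnd _ (hdF a) hx) y)

include hA1 hA2 hpi hip hεσ in
theorem p_mF (a : F) (v : ℝ ⊗[k] W) : p ((mF k W a).baseChange ℝ v) = σ a • p v := by
  have hi := inj_i i p hpi
  apply hi
  rw [map_smul, hip]
  have h1 : act k F W ε ((mF k W a).baseChange ℝ v) =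
      (mF k W a).baseChange ℝ (act k F W ε v) := by
    rw [← act_one hA1, ← Module.End.mul_apply, ← Module.End.mul_apply, ← hA2, ← hA2, mul_comm]
  rw [h1, ← hip]
  exact mF_i (W := W) hA1 hA2 σ ε hεσ i p hpi hip a (p v)

include hA1 hpi hip hδF hσd in
theorem p_d (v : ℝ ⊗[k] W) :
    p (δ.baseChange ℝ v) = Real.sqrt (σ d) • JT σ d δ i p (p v) := by
  have hi := inj_i i p hpi
  apply hi
  rw [map_smul, hip, i_JT δ hA1 σ ε i p hpi hip hδF, smul_smul,
    mul_inv_cancel₀ (Real.sqrt_pos.2 hσd).ne', one_smul, hip, d_act δ hA1 hδF]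

/-- The generators on the eigenspace. -/
def genT (K : Type) [Field K] [CharZero K] [IsAlgClosed K] [Algebra k K] [Algebra K ℂ]
    [IsScalarTower k K ℂ] (ξ : Basis ι ℂ (W →ₗ[k] ℂ)) (i : T →ₗ[ℝ] ℝ ⊗[k] W) :
    Set (Module.End ℝ T) :=
  {x₁ | ∃ (D : Derivation K ℂ ℂ) (lam : ℂ →ₗ[k] k),
        ∀ t, (Y0 ξ D lam).baseChange ℝ (i t) = i (x₁ t)}

include hb hnd hdF hA1 hpi hip in
theorem stabT {x : Module.End ℝ (ℝ ⊗[k] W)} (hx : x ∈ gR (K := K) ξ) (t : T) :
    x (i t) = i ((p ∘ₗ x ∘ₗ i) t) := by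
  have h1 := gR_act (K := K) ξ b hb hnd hA1 hdF hx ε (i t)
  rw [e_i ε i p hpi hip, ← hip] at h1
  exact h1

include hb hnd hdF hA1 hpi hip in
theorem push_adj (a : Module.End ℝ (ℝ ⊗[k] W)) (ha : a ∈ Algebra.adjoin ℝ
      {Z : Module.End ℝ (ℝ ⊗[k] W) |
      ∃ (D : Derivation K ℂ ℂ) (lam : ℂ →ₗ[k] k), Z = (Y0 ξ D lam).baseChange ℝ}) :
    ∃ a₁ ∈ Algebra.adjoin ℝ (genT K ξ i), ∀ t, a (i t) = i (a₁ t) := by
  induction ha using Algebra.adjoin_induction with
  | mem x hx =>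
    obtain ⟨D, lam, rfl⟩ := hx
    have h1 := stabT (K := K) ξ b hb hnd hA1 ε i p hpi hip hdF (Y0_mem (K := K) ξ D lam)
    exact ⟨_, Algebra.subset_adjoin ⟨D, lam, h1⟩, h1⟩
  | algebraMap r =>
    refine ⟨algebraMap ℝ _ r, Subalgebra.algebraMap_mem _ r, fun t => ?_⟩
    rw [Module.algebraMap_end_apply, Module.algebraMap_end_apply, map_smul]
  | add x y _ _ hx hy =>
    obtain ⟨x₁, hx₁, hx⟩ := hx
    obtain ⟨y₁, hy₁, hy⟩ := hy
    exact ⟨x₁ + y₁, add_mem hx₁ hy₁, fun t => by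
      rw [LinearMap.add_apply, hx, hy, LinearMap.add_apply, map_add]⟩
  | mul x y _ _ hx hy =>
    obtain ⟨x₁, hx₁, hx⟩ := hx
    obtain ⟨y₁, hy₁, hy⟩ := hy
    exact ⟨x₁ * y₁, mul_mem hx₁ hy₁, fun t => by
      rw [Module.End.mul_apply, hy, hx, Module.End.mul_apply]⟩

include hA1 hA2 hpi hip hεσ hsym hnd hF hδF hδδ hδb hσd hss hend hb hdF in
/-- The rank one endomorphisms of the eigenspace are generated. -/
theorem elT_mem (v w : T) :
    el (bT (bx ℝ b) i) (JT σ d δ i p) 1 v w ∈ Algebra.adjoin ℝ (genT K ξ i) := by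
  have hi := inj_i i p hpi
  have hH := herm_JT b δ hnd hA1 hA2 σ ε hεσ i p hpi hip hsym hF hδF d hδδ hδb hσd
  have hJsk : ∀ u v, bT (bx ℝ b) i (JT σ d δ i p u) v = -bT (bx ℝ b) i u (JT σ d δ i p v) := by
    intro u v
    have h6 := hH.isom (JT σ d δ i p u) v
    rw [← Module.End.mul_apply, hH.sq, LinearMap.neg_apply, Module.End.one_apply, map_neg,
      LinearMap.neg_apply] at h6
    linarith
  set E := el (bT (bx ℝ b) i) (JT σ d δ i p) 1 v w with hE
  have hc : E * JT σ d δ i p = JT σ d δ i p * E :=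
    el_comm (bT (bx ℝ b) i) (JT σ d δ i p) 1 (by rw [hH.sq, one_smul]) hJsk v w
  have h1 := endE_mem (K := K) ξ δ hss hend (i ∘ₗ E ∘ₗ p) (by
      intro a
      refine LinearMap.ext fun u => ?_
      rw [Module.End.mul_apply, Module.End.mul_apply, LinearMap.comp_apply, LinearMap.comp_apply,
        LinearMap.comp_apply, LinearMap.comp_apply, p_mF hA1 hA2 σ ε hεσ i p hpi hip, map_smul,
        map_smul, mF_i hA1 hA2 σ ε hεσ i p hpi hip]) (by
      refine LinearMap.ext fun u => ?_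
      have h2 := congrArg (fun P : Module.End ℝ T => P (p u)) hc
      simp only [Module.End.mul_apply] at h2
      rw [Module.End.mul_apply, Module.End.mul_apply, LinearMap.comp_apply, LinearMap.comp_apply,
        LinearMap.comp_apply, LinearMap.comp_apply, p_d δ hA1 σ ε i p hpi hip hδF d hσd, map_smul,
        map_smul, h2, i_JT δ hA1 σ ε i p hpi hip hδF, smul_smul,
        mul_inv_cancel₀ (Real.sqrt_pos.2 hσd).ne', one_smul])
  obtain ⟨a₁, ha₁, h2⟩ := push_adj (K := K) ξ b hb hnd hA1 ε i p hpi hip hdF _ h1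
  have h3 : E = a₁ := by
    refine LinearMap.ext fun t => hi ?_
    rw [← h2, LinearMap.comp_apply, LinearMap.comp_apply, hpi]
  rw [h3]
  exact ha₁


/-! ### The Lie algebra on the eigenspace -/

variable (hsig : SignatureTwo (bx ℝ b)) (hposT : ∃ t, 0 < bT (bx ℝ b) i t t)

theorem herm_sk {V : Type} [AddCommGroup V] [Module ℝ V] {B : V →ₗ[ℝ] V →ₗ[ℝ] ℝ}
    {J : Module.End ℝ V} (hH : Herm B J) (u v : V) : B (J u) v = -B u (J v) := by
  have h6 := hH.isom (J u) v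
  rw [← Module.End.mul_apply, hH.sq, LinearMap.neg_apply, Module.End.one_apply, map_neg,
    LinearMap.neg_apply] at h6
  linarith

theorem herm_self {V : Type} [AddCommGroup V] [Module ℝ V] {B : V →ₗ[ℝ] V →ₗ[ℝ] ℝ}
    {J : Module.End ℝ V} (hH : Herm B J) (u : V) : B u (J u) = 0 := by
  have h1 := herm_sk hH u u
  rw [hH.symm (J u) u] at h1
  linarith

include hA1 hA2 hpi hip hεσ hsym hnd hF hδF hδδ hδb hσd hss hend hb hdF hδ hsig hposT in
/-- The image of the real Lie algebra satisfies all conditions. -/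
theorem goodT (S3 : S_KILL) (hSPLIT : S_SPLIT) (hHYPP : S_HYPP) :
    GoodJ (bT (bx ℝ b) i) (JT σ d δ i p) (gT (gR (K := K) ξ) i) := by
  have hi := inj_i i p hpi
  have hH := herm_JT b δ hnd hA1 hA2 σ ε hεσ i p hpi hip hsym hF hδF d hδδ hδb hσd
  have h2 := irr_el (bT (bx ℝ b) i) (JT σ d δ i p) hH (genT K ξ i)
    (fun v w => elT_mem (K := K) ξ b δ hb hnd hss hend hA1 hA2 σ ε hεσ i p hpi hip hsym hF hδF d
      hδδ hδb hσd hdF v w)
  have hgen : ∀ x ∈ genT K ξ i, x ∈ gT (gR (K := K) ξ) i := by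
    rintro x ⟨D, lam, hx⟩
    exact ⟨_, Y0_mem (K := K) ξ D lam, hx⟩
  have hbrR : ∀ x ∈ gR (K := K) ξ, ∀ y ∈ gR (K := K) ξ, x * y - y * x ∈ gR (K := K) ξ := by
    intro x hx y hy κ _ _ φ hφ
    exact kills_bracket (hx κ φ hφ) (hy κ φ hφ)
  have hskew : ∀ x ∈ gT (gR (K := K) ξ) i, ∀ u v,
      bT (bx ℝ b) i (x u) v + bT (bx ℝ b) i u (x v) = 0 := by
    rintro x ⟨X, hX, hXi⟩ u v
    rw [bT_apply, bT_apply, ← hXi, ← hXi]
    exact gR_skewB (K := K) ξ b hb hX _ _
  have hbr : ∀ x ∈ gT (gR (K := K) ξ) i, ∀ y ∈ gT (gR (K := K) ξ) i,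
      x * y - y * x ∈ gT (gR (K := K) ξ) i := by
    rintro x ⟨X, hX, hXi⟩ y ⟨Y, hY, hYi⟩
    refine ⟨X * Y - Y * X, hbrR X hX Y hY, fun t => ?_⟩
    rw [LinearMap.sub_apply, Module.End.mul_apply, Module.End.mul_apply, hXi, hYi, hXi, hYi,
      LinearMap.sub_apply, map_sub, Module.End.mul_apply, Module.End.mul_apply]
  have hirr : ∀ U : Submodule ℝ T, (∀ x ∈ gT (gR (K := K) ξ) i, ∀ u ∈ U, x u ∈ U) →
      U = ⊥ ∨ U = ⊤ := fun U hU => h2.1 U fun x hx u hu => hU _ (hgen x hx) u hu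
  have hcomm : ∀ P : Module.End ℝ T, (∀ x ∈ gT (gR (K := K) ξ) i, x * P = P * x) →
      ∃ c e : ℝ, P = c • 1 + e • JT σ d δ i p := fun P hP => h2.2 P fun x hx => hP _ (hgen x hx)
  refine ⟨hH, ?_, hskew, ?_, hbr, hirr, hcomm, ?_, ?_⟩
  · intro U hU
    have h3 := witt_of_signature (bx ℝ b) hsig (U.map i) (by
      rintro _ ⟨u, hu, rfl⟩ _ ⟨v, hv, rfl⟩
      exact hU u hu v hv)
    rw [(Submodule.equivMapOfInjective i hi U).finrank_eq]
    exact h3
  · rintro x ⟨X, hX, hXi⟩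
    refine LinearMap.ext fun t => hi ?_
    have h3 := congrArg (fun P : Module.End ℝ (ℝ ⊗[k] W) => P (i t))
      (gR_commP (K := K) ξ b hb hnd δ hδ hX)
    simp only [Module.End.mul_apply] at h3
    rw [Module.End.mul_apply, Module.End.mul_apply, ← hXi, i_JT δ hA1 σ ε i p hpi hip hδF,
      i_JT δ hA1 σ ε i p hpi hip hδF, ← hXi, map_smul, h3]
  · intro x hx htr
    have h5 := central_of_trace (gT (gR (K := K) ξ) i) (by
      intro U hU
      rcases hirr U hU with rfl | rfl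
      · exact ⟨⊤, fun _ _ _ _ => trivial, isCompl_bot_top⟩
      · exact ⟨⊥, fun X _ u hu => by
          rw [Submodule.mem_bot] at hu
          rw [hu, map_zero]
          exact Submodule.zero_mem _, isCompl_top_bot⟩) hbr hx htr
    obtain ⟨c, e, he⟩ := hcomm x h5
    obtain ⟨v0, hv0⟩ := hposT
    have hJsk := herm_sk hH
    have hc : c = 0 := by
      have h6 := hskew x hx v0 v0
      rw [he] at h6
      simp only [LinearMap.add_apply, LinearMap.smul_apply, Module.End.one_apply, map_add,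
        map_smul, smul_eq_mul, hJsk] at h6
      have h7 : c * bT (bx ℝ b) i v0 v0 = 0 := by linarith
      exact (mul_eq_zero.1 h7).resolve_right hv0.ne'
    have h6 := htr x hx
    rw [hc, zero_smul, zero_add] at he
    have h7 : x * x = (-(e * e)) • (1 : Module.End ℝ T) := by
      rw [he]
      refine LinearMap.ext fun u => ?_
      rw [Module.End.mul_apply, LinearMap.smul_apply, LinearMap.smul_apply, map_smul, smul_smul,
        ← Module.End.mul_apply, hH.sq, LinearMap.neg_apply, LinearMap.smul_apply,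
        Module.End.one_apply, smul_neg, neg_smul]
    rw [h7, map_smul, LinearMap.trace_one, smul_eq_mul] at h6
    have h8 : (finrank ℝ T : ℝ) ≠ 0 := by
      have : Nontrivial T := ⟨⟨v0, 0, fun h => by rw [h, map_zero] at hv0; exact lt_irrefl _ hv0⟩⟩
      have : finrank ℝ T ≠ 0 := (Module.finrank_pos (R := ℝ) (M := T)).ne'
      exact_mod_cast this
    have h9 : e = 0 := by
      have h10 := (mul_eq_zero.1 h6).resolve_right h8
      have h11 : e * e = 0 := by linarith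
      exact mul_self_eq_zero.1 h11
    rw [he, h9, zero_smul]
  · intro y z hyz hc hy hz
    exact hyp_gT (gR (K := K) ξ) i p hpi (fun y z hyz hc hy hz κ _ _ φ hφ =>
      S3 _ κ _ y z hc hy hz (hyz κ φ hφ)) hSPLIT hHYPP y z hyz hc hy hz

include hA1 hA2 hpi hip hεσ hsym hnd hF hδF hδδ hδb hσd hsig hposT in
/-- Negativity on the orthogonal complement. -/
theorem neg_i : ∃ t, 0 < bT (bx ℝ b) i t t ∧ ∀ u : ℝ ⊗[k] W, bx ℝ b u (i t) = 0 →
    bx ℝ b u (i (JT σ d δ i p t)) = 0 → u ≠ 0 → bx ℝ b u u < 0 := by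
  have hH := herm_JT b δ hnd hA1 hA2 σ ε hεσ i p hpi hip hsym hF hδF d hδδ hδb hσd
  obtain ⟨t, ht⟩ := hposT
  refine ⟨t, ht, fun u h0 h1 hu => ?_⟩
  refine neg_of_orth (bx ℝ b) (bx_symm b ℝ hsym) hsig (i t) (i (JT σ d δ i p t)) u ht ?_ ?_ h0 h1
    hu
  · have h2 := hH.isom t t
    rw [bT_apply, bT_apply] at h2
    rw [h2]
    exact ht
  · exact herm_self hH t

include hA1 hA2 hpi hip hεσ hsym hnd hF hδF hδδ hδb hσd hsig hposT in
theorem negT (h3 : 3 ≤ finrank ℝ T) : ∃ t, bT (bx ℝ b) i t t < 0 := by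
  obtain ⟨t, ht, h⟩ := neg_i b δ hnd hA1 hA2 σ ε hεσ i p hpi hip hsym hF hδF d hδδ hδb hσd hsig
    hposT
  have hi := inj_i i p hpi
  set f : T →ₗ[ℝ] (Fin 2 → ℝ) := LinearMap.pi ![bT (bx ℝ b) i t,
    bT (bx ℝ b) i (JT σ d δ i p t)] with hf
  have h4 : LinearMap.ker f ≠ ⊥ := by
    intro h5
    have h6 := LinearMap.finrank_range_add_finrank_ker f
    rw [h5, finrank_bot, add_zero] at h6
    have h7 := Submodule.finrank_le (LinearMap.range f)
    rw [Module.finrank_fin_fun] at h7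
    omega
  obtain ⟨u, hu, hu0⟩ := (LinearMap.ker f).ne_bot_iff.1 h4
  rw [LinearMap.mem_ker] at hu
  have h5 := congrFun hu 0
  have h6 := congrFun hu 1
  simp only [hf, LinearMap.pi_apply, Matrix.cons_val_zero, Matrix.cons_val_one,
    Pi.zero_apply] at h5 h6
  refine ⟨u, h (i u) ?_ ?_ ?_⟩
  · rw [bx_symm b ℝ hsym]
    exact h5
  · rw [bx_symm b ℝ hsym]
    exact h6
  · intro h7
    exact hu0 (hi (by rw [h7, map_zero]))

include hA1 hA2 hpi hip hεσ hsym hnd hF hδF hδδ hδb hσd hsig hposT in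
theorem def_ker (u : ℝ ⊗[k] W) (hu : p u = 0) (hu0 : u ≠ 0) : bx ℝ b u u ≠ 0 := by
  obtain ⟨t, ht, h⟩ := neg_i b δ hnd hA1 hA2 σ ε hεσ i p hpi hip hsym hF hδF d hδδ hδb hσd hsig
    hposT
  refine (h u ?_ ?_ hu0).ne
  · rw [bx_symm b ℝ hsym, bx_i b hA1 ε i p hpi hip hF, hu, map_zero]
  · rw [bx_symm b ℝ hsym, bx_i b hA1 ε i p hpi hip hF, hu, map_zero]


/-! ### Descent of forms -/

/-- The form is linear over `F`: the multiplications in different variables agree. -/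
def IsFLinear (k F : Type) {W κ : Type} [Field k] [Field F] [AddCommGroup W] [Module k W]
    [Module F W] [DecidableEq κ] (φ : MultilinearMap k (fun _ : κ => W) k) : Prop :=
  ∀ (v : κ → W) (p q : κ) (a : F),
    φ (Function.update v p (a • v p)) = φ (Function.update v q (a • v q))

/-- The extension by zero of a form on the eigenspace. -/
def ext0 {κ : Type} (p : ℝ ⊗[k] W →ₗ[ℝ] T) (Φ : MultilinearMap ℝ (fun _ : κ => T) ℝ) :
    MultilinearMap ℝ (fun _ : κ => ℝ ⊗[k] W) ℝ := Φ.compLinearMap (fun _ => p)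

theorem ext0_apply {κ : Type} (Φ : MultilinearMap ℝ (fun _ : κ => T) ℝ)
    (v : κ → ℝ ⊗[k] W) : ext0 p Φ v = Φ (fun l => p (v l)) := rfl

theorem ext0_update {κ : Type} [DecidableEq κ] (Φ : MultilinearMap ℝ (fun _ : κ => T) ℝ)
    (v : κ → ℝ ⊗[k] W) (j : κ) (x : ℝ ⊗[k] W) :
    ext0 p Φ (Function.update v j x) = Φ (Function.update (fun l => p (v l)) j (p x)) := by
  rw [ext0_apply]
  congr 1
  funext l
  by_cases hl : l = j
  · subst hl
    rw [Function.update_self, Function.update_self]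
  · rw [Function.update_of_ne hl, Function.update_of_ne hl]

theorem kills_ext0 {κ : Type} [Fintype κ] [DecidableEq κ]
    (Φ : MultilinearMap ℝ (fun _ : κ => T) ℝ) (x : Module.End ℝ (ℝ ⊗[k] W))
    (x₁ : Module.End ℝ T) (hx : ∀ v, p (x v) = x₁ (p v)) (h : Kills x₁ Φ) :
    Kills x (ext0 p Φ) := by
  intro v
  rw [← h (fun l => p (v l))]
  exact Finset.sum_congr rfl fun j _ => by rw [ext0_update, hx]

include hpi in
theorem kills_of_ext0 {κ : Type} [Fintype κ] [DecidableEq κ]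
    (Φ : MultilinearMap ℝ (fun _ : κ => T) ℝ) (x₁ : Module.End ℝ T)
    (h : Kills (i ∘ₗ x₁ ∘ₗ p : Module.End ℝ (ℝ ⊗[k] W)) (ext0 p Φ)) : Kills x₁ Φ := by
  intro v
  rw [← h (fun l => i (v l))]
  refine Finset.sum_congr rfl fun j _ => ?_
  rw [ext0_update]
  simp only [LinearMap.comp_apply, hpi]

theorem fcmp_ext0 {κ : Type} [Fintype κ] [DecidableEq κ]
    (Φ : MultilinearMap ℝ (fun _ : κ => T) ℝ) (lam : ℝ →ₗ[k] k) (P : Module.End k W)
    (v : κ → W) (j : κ) : fcmp lam (ext0 p Φ) (Function.update v j (P (v j))) =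
      lam (Φ (Function.update (fun l => p ((1 : ℝ) ⊗ₜ[k] v l)) j
        (p (P.baseChange ℝ ((1 : ℝ) ⊗ₜ[k] v j))))) := by
  rw [fcmp_apply, ← ext0_update]
  congr 2
  funext l
  by_cases hl : l = j
  · subst hl
    rw [Function.update_self, Function.update_self, LinearMap.baseChange_tmul]
  · rw [Function.update_of_ne hl, Function.update_of_ne hl]

include hA1 hA2 hpi hip hεσ in
theorem flin_fcmp {κ : Type} [Fintype κ] [DecidableEq κ]
    (Φ : MultilinearMap ℝ (fun _ : κ => T) ℝ) (lam : ℝ →ₗ[k] k) :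
    IsFLinear k F (fcmp lam (ext0 p Φ)) := by
  intro v q r a
  have h1 := fcmp_ext0 p Φ lam (mF k W a) v
  simp only [mF_apply] at h1
  rw [h1, h1, p_mF hA1 hA2 σ ε hεσ i p hpi hip, p_mF hA1 hA2 σ ε hεσ i p hpi hip,
    MultilinearMap.map_update_smul, MultilinearMap.map_update_smul, Function.update_eq_self_iff.2 rfl,
    Function.update_eq_self_iff.2 rfl]

include hA1 hpi hip hδF hσd in
theorem sesqui_fcmp0 {m : ℕ} (Φ : MultilinearMap ℝ (fun _ : Fin m × Fin 2 => T) ℝ)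
    (h : IsSesqui (JT σ d δ i p) Φ) (lam : ℝ →ₗ[k] k) : IsSesqui δ (fcmp lam (ext0 p Φ)) := by
  have h1 := fun (v : Fin m × Fin 2 → W) j => fcmp_ext0 p Φ lam δ v j
  have h2 : ∀ (v : Fin m × Fin 2 → W) (j : Fin m × Fin 2),
      Φ (Function.update (fun l => p ((1 : ℝ) ⊗ₜ[k] v l)) j
        (p (δ.baseChange ℝ ((1 : ℝ) ⊗ₜ[k] v j)))) = Real.sqrt (σ d) *
      Φ (Function.update (fun l => p ((1 : ℝ) ⊗ₜ[k] v l)) j
        (JT σ d δ i p (p ((1 : ℝ) ⊗ₜ[k] v j)))) := by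
    intro v j
    rw [p_d δ hA1 σ ε i p hpi hip hδF d hσd, MultilinearMap.map_update_smul, smul_eq_mul]
  refine ⟨fun v q r => ?_, fun v q r => ?_, fun v q r hqr hv => ?_, fun v q r hqr hv => ?_⟩
  · rw [h1, h1, h2, h2, h.lin (fun l => p ((1 : ℝ) ⊗ₜ[k] v l)) q r]
  · rw [h1, h1, h2, h2, h.anti (fun l => p ((1 : ℝ) ⊗ₜ[k] v l)) q r, mul_neg, map_neg]
  · rw [fcmp_apply, ext0_apply, h.alt0 (fun l => p ((1 : ℝ) ⊗ₜ[k] v l)) q r hqr (by rw [hv]),
      map_zero]
  · rw [fcmp_apply, ext0_apply, h.alt1 (fun l => p ((1 : ℝ) ⊗ₜ[k] v l)) q r hqr (by rw [hv]),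
      map_zero]

/-- A real form all of whose components are killed by the rational elements of the unitary Lie
algebra is killed by the real ones. -/
theorem kills_realF {κ : Type} [Fintype κ] [DecidableEq κ]
    (Φ : MultilinearMap ℝ (fun _ : κ => ℝ ⊗[k] W) ℝ)
    (h : ∀ lam : ℝ →ₗ[k] k, ∀ x : Module.End k W, (∀ u v, b (x u) v + b u (x v) = 0) →
      (∀ a : F, x * mF k W a = mF k W a * x) → x * δ = δ * x → Kills x (fcmp lam Φ))
    (X : Module.End ℝ (ℝ ⊗[k] W)) (hX : ∀ u v, bx ℝ b (X u) v + bx ℝ b u (X v) = 0)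
    (hXF : ∀ a : F, X * (mF k W a).baseChange ℝ = (mF k W a).baseChange ℝ * X)
    (hXδ : X * δ.baseChange ℝ = δ.baseChange ℝ * X) : Kills X Φ := by
  have h1 : X ∈ extEnd ℝ (fun x : W →ₗ[k] W => (∀ u v, b (x u) v + b u (x v) = 0) ∧
      (∀ a : F, (x : Module.End k W) * mF k W a = mF k W a * x) ∧
      (x : Module.End k W) * δ = δ * x) := by
    refine end_mem_span _ X fun lam => ⟨fun u v => ?_, fun a => comm_cmp (hXF a) lam,
      comm_cmp hXδ lam⟩
    rw [cmpE_apply, cmpE_apply, ← lam_omega b (bx ℝ b) (bx_one b ℝ),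
      ← lam_omega' b (bx ℝ b) (bx_one b ℝ), ← map_add, hX, map_zero]
  clear hX hXF hXδ
  unfold extEnd at h1
  induction h1 using Submodule.span_induction with
  | mem X h2 =>
    obtain ⟨x, ⟨hx1, hx2, hx3⟩, rfl⟩ := h2
    refine kills_span (fun ψ => ∀ x : Module.End k W, (∀ u v, b (x u) v + b u (x v) = 0) →
      (∀ a : F, x * mF k W a = mF k W a * x) → x * δ = δ * x → Kills x ψ) x
      (fun ψ hψ => hψ x hx1 hx2 hx3) Φ ?_
    exact form_mem_span _ Φ h
  | zero =>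
    intro v
    refine Finset.sum_eq_zero fun j _ => ?_
    rw [LinearMap.zero_apply]
    exact Φ.map_coord_zero j (Function.update_self _ _ _)
  | add X Y _ _ hX hY =>
    intro v
    have h3 := congrArg₂ (fun x y : ℝ => x + y) (hX v) (hY v)
    simp only [add_zero] at h3
    rw [← h3, ← Finset.sum_add_distrib]
    refine Finset.sum_congr rfl fun j _ => ?_
    rw [LinearMap.add_apply, MultilinearMap.map_update_add]
  | smul c X _ hX =>
    intro v
    rw [← mul_zero c, ← hX v, Finset.mul_sum]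
    refine Finset.sum_congr rfl fun j _ => ?_
    rw [LinearMap.smul_apply, MultilinearMap.map_update_smul, smul_eq_mul]


/-! ### The elements of the Lie algebra -/

include hA1 hA2 hpi hip hεσ in
theorem ipc_F (x₁ : Module.End ℝ T) (a : F) :
    (i ∘ₗ x₁ ∘ₗ p : Module.End ℝ (ℝ ⊗[k] W)) * (mF k W a).baseChange ℝ =
      (mF k W a).baseChange ℝ * (i ∘ₗ x₁ ∘ₗ p : Module.End ℝ (ℝ ⊗[k] W)) := by
  refine LinearMap.ext fun u => ?_
  rw [Module.End.mul_apply, Module.End.mul_apply, LinearMap.comp_apply, LinearMap.comp_apply,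
    LinearMap.comp_apply, LinearMap.comp_apply, p_mF hA1 hA2 σ ε hεσ i p hpi hip, map_smul,
    map_smul, mF_i hA1 hA2 σ ε hεσ i p hpi hip]

include hA1 hpi hip hδF hσd in
theorem ipc_d (x₁ : Module.End ℝ T) (h : x₁ * JT σ d δ i p = JT σ d δ i p * x₁) :
    (i ∘ₗ x₁ ∘ₗ p : Module.End ℝ (ℝ ⊗[k] W)) * δ.baseChange ℝ =
      δ.baseChange ℝ * (i ∘ₗ x₁ ∘ₗ p : Module.End ℝ (ℝ ⊗[k] W)) := by
  refine LinearMap.ext fun u => ?_
  have h2 := congrArg (fun P : Module.End ℝ T => P (p u)) h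
  simp only [Module.End.mul_apply] at h2
  rw [Module.End.mul_apply, Module.End.mul_apply, LinearMap.comp_apply, LinearMap.comp_apply,
    LinearMap.comp_apply, LinearMap.comp_apply, p_d δ hA1 σ ε i p hpi hip hδF d hσd, map_smul,
    map_smul, h2, i_JT δ hA1 σ ε i p hpi hip hδF, smul_smul,
    mul_inv_cancel₀ (Real.sqrt_pos.2 hσd).ne', one_smul]

include hA1 hpi hip hF hsym in
theorem ipc_skew (x₁ : Module.End ℝ T)
    (h : ∀ u v, bT (bx ℝ b) i (x₁ u) v + bT (bx ℝ b) i u (x₁ v) = 0) (u v : ℝ ⊗[k] W) :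
    bx ℝ b ((i ∘ₗ x₁ ∘ₗ p : Module.End ℝ (ℝ ⊗[k] W)) u) v +
      bx ℝ b u ((i ∘ₗ x₁ ∘ₗ p : Module.End ℝ (ℝ ⊗[k] W)) v) = 0 := by
  rw [bx_symm b ℝ hsym u]
  rw [LinearMap.comp_apply, LinearMap.comp_apply, LinearMap.comp_apply, LinearMap.comp_apply,
    bx_i b hA1 ε i p hpi hip hF, bx_i b hA1 ε i p hpi hip hF]
  have h1 := h (p u) (p v)
  have h2 : bT (bx ℝ b) i (p u) (x₁ (p v)) = bT (bx ℝ b) i (x₁ (p v)) (p u) :=
    bx_symm b ℝ hsym _ _
  rw [h2] at h1
  exact h1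

variable {m : ℕ}
  (hΛ : ∀ φ : MultilinearMap k (fun _ : Fin m × Fin 2 => W) k,
    IsDRBForm K (ξ : ι → (W →ₗ[k] ℂ)) φ → IsSesqui δ φ → IsFLinear k F φ →
    ∀ x : Module.End k W, (∀ u v, b (x u) v + b u (x v) = 0) →
    (∀ a : F, x * mF k W a = mF k W a * x) → x * δ = δ * x → Kills x φ)

include hA1 hA2 hpi hip hεσ hsym hnd hF hδF hδδ hδb hσd hss hend hb hdF hδ hsig hposT hΛ in
/-- The extension by zero of an element of the special unitary Lie algebra of the eigenspace. -/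
theorem ext_mem (S3 : S_KILL) (hPF : KU.S_PF) (hCAS : KU.S_CAS)
    (hSPLIT : S_SPLIT) (hNORM : KU.S_NORM) (hDU : S_DU) (hUA : S_UA) (hUE : S_UE) (hUB : S_UB)
    (hVOL : S_VOL) (hHYPP : S_HYPP) (hRES : S_RES) (hDEFN : S_DEFN) (hIDL : S_IDL)
    (hm : 2 ≤ m) (hn : finrank ℝ T = 4 * m) (x₁ : Module.End ℝ T)
    (hx : ∀ u v, bT (bx ℝ b) i (x₁ u) v + bT (bx ℝ b) i u (x₁ v) = 0)
    (hxJ : x₁ * JT σ d δ i p = JT σ d δ i p * x₁)
    (htr : LinearMap.trace ℝ T (x₁ * JT σ d δ i p) = 0) :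
    (i ∘ₗ x₁ ∘ₗ p : Module.End ℝ (ℝ ⊗[k] W)) ∈ gR (K := K) ξ := by
  have hg := goodT (K := K) ξ b δ hb hnd hss hend hA1 hA2 σ ε hεσ i p hpi hip hsym hF hδF d
    hδδ hδb hσd hdF hδ hsig hposT S3 hSPLIT hHYPP
  have hbrR : ∀ x ∈ gR (K := K) ξ, ∀ y ∈ gR (K := K) ξ, x * y - y * x ∈ gR (K := K) ξ := by
    intro x hx y hy κ _ _ φ hφ
    exact kills_bracket (hx κ φ hφ) (hy κ φ hφ)
  have hge : ∀ x ∈ gR (K := K) ξ, ∀ v, x (i (p v)) = i (p (x v)) := by
    intro x hx v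
    rw [hip, hip]
    exact gR_act (K := K) ξ b hb hnd hA1 hdF hx ε v
  rcases real_altT (bx ℝ b) (JT σ d δ i p) (gR (K := K) ξ) i p hpi hge
    (fun x hx => gR_skewB (K := K) ξ b hb hx) hbrR (fun y z hyz hc hy hz κ _ _ φ hφ =>
      S3 _ κ _ y z hc hy hz (hyz κ φ hφ)) hPF hCAS hSPLIT hNORM hDU hUA hUE hUB hRES hDEFN hIDL
    hg (by omega) hposT (negT b δ hnd hA1 hA2 σ ε hεσ i p hpi hip hsym hF hδF d hδδ hδb hσd hsig
      hposT (by omega)) (fun u hu hu0 => def_ker b δ hnd hA1 hA2 σ ε hεσ i p hpi hip hsym hF hδF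
        d hδδ hδb hσd hsig hposT u hu hu0) with h | h
  · exact h x₁ hx hxJ htr
  · exfalso
    obtain ⟨V₀, hV, hV', hst⟩ := h
    have hev : finrank ℝ V₀ = 2 * m := by
      have h1 := Submodule.finrank_add_eq_of_isCompl hV
      have h2 : finrank ℝ (V₀.map (JT σ d δ i p)) = finrank ℝ V₀ := by
        refine (Submodule.equivMapOfInjective (JT σ d δ i p) ?_ V₀).finrank_eq.symm
        rw [injective_iff_map_eq_zero]
        intro u hu
        have h3 := congrArg (fun P : Module.End ℝ T => P u) hg.herm.sq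
        simp only [Module.End.mul_apply, hu, map_zero, LinearMap.neg_apply,
          Module.End.one_apply] at h3
        exact neg_eq_zero.1 h3.symm
      rw [h2, hn] at h1
      omega
    obtain ⟨Φ, hΦs, hΦk, hΦn⟩ := hVOL T (bT (bx ℝ b) i) (JT σ d δ i p) hg.herm V₀ hV hV' m
      (by omega) hev
    apply hΦn
    have h2 : ∀ y ∈ gR (K := K) ξ, Kills y (ext0 p Φ) := by
      intro y hy
      have hyi := stabT (K := K) ξ b hb hnd hA1 ε i p hpi hip hdF hy
      have hyg : (p ∘ₗ y ∘ₗ i : Module.End ℝ T) ∈ gT (gR (K := K) ξ) i := ⟨y, hy, hyi⟩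
      refine kills_ext0 p Φ y (p ∘ₗ y ∘ₗ i) ?_
        (hΦk _ (hg.skew _ hyg) (hg.commJ _ hyg) (hst _ hyg))
      intro v
      apply inj_i i p hpi
      rw [← hyi, hge y hy]
    intro X hX hXJ
    refine kills_of_ext0 i p hpi Φ X ?_
    exact kills_realF (F := F) b δ (ext0 p Φ) (fun lam y hy hyF hyδ =>
      hΛ _ (fcmp_drb (K := K) ξ (ext0 p Φ) h2 lam)
        (sesqui_fcmp0 δ hA1 σ ε i p hpi hip hδF d hσd Φ hΦs lam)
        (flin_fcmp hA1 hA2 σ ε hεσ i p hpi hip Φ lam) y hy hyF hyδ) _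
      (ipc_skew b hA1 ε i p hpi hip hsym hF X hX)
      (ipc_F hA1 hA2 σ ε hεσ i p hpi hip X) (ipc_d δ hA1 σ ε i p hpi hip hδF d hσd X hXJ)

include hA1 in
theorem cmp_act (lam : ℝ →ₗ[k] k) (y : ℝ ⊗[k] F) (w : W) :
    cmp lam (act k F W y ((1 : ℝ) ⊗ₜ[k] w)) =
      (TensorProduct.lid k F) (LinearMap.rTensor F lam y) • w := by
  induction y using TensorProduct.induction_on with
  | zero => simp only [map_zero, LinearMap.zero_apply, zero_smul]
  | add x y hx hy => rw [map_add, LinearMap.add_apply, map_add, hx, hy, map_add, map_add, add_smul]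
  | tmul r a =>
    rw [hA1, mul_one, cmp_tmul, LinearMap.rTensor_tmul, TensorProduct.lid_tmul, smul_assoc]

include hA1 in
theorem trace_act (A : Module.End k W)
    (h : ∀ a : F, LinearMap.trace k W (A * mF k W a) = 0) (y : ℝ ⊗[k] F) :
    LinearMap.trace ℝ (ℝ ⊗[k] W) (A.baseChange ℝ * act k F W y) = 0 := by
  induction y using TensorProduct.induction_on with
  | zero =>
    rw [map_zero]
    have h1 : A.baseChange ℝ * (0 : Module.End ℝ (ℝ ⊗[k] W)) = 0 :=
      LinearMap.ext fun v => by rw [Module.End.mul_apply, LinearMap.zero_apply, map_zero]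
    rw [h1, map_zero]
  | add x y hx hy =>
    have h1 : A.baseChange ℝ * act k F W (x + y) =
        A.baseChange ℝ * act k F W x + A.baseChange ℝ * act k F W y :=
      LinearMap.ext fun v => by
        rw [Module.End.mul_apply, map_add, LinearMap.add_apply, map_add]; rfl
    rw [h1, map_add, hx, hy, add_zero]
  | tmul r a =>
    have h1 : A.baseChange ℝ * act k F W (r ⊗ₜ[k] a) =
        r • (A * mF k W a).baseChange ℝ := by
      rw [act_real hA1, bc_mul]
      refine LinearMap.ext fun v => ?_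
      rw [Module.End.mul_apply, LinearMap.smul_apply, map_smul]
      rfl
    rw [h1, map_smul, LinearMap.trace_baseChange, h, map_zero, smul_zero]

include hA1 hA2 hpi hip hεσ hsym hnd hF hδF hδδ hδb hσd hss hend hb hdF hδ hsig hposT hΛ in
/-- The elements of the special unitary Lie algebra kill the de Rham-Betti forms. -/
theorem kills_su (S3 : S_KILL) (hPF : KU.S_PF) (hCAS : KU.S_CAS)
    (hSPLIT : S_SPLIT) (hNORM : KU.S_NORM) (hDU : S_DU) (hUA : S_UA) (hUE : S_UE) (hUB : S_UB)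
    (hVOL : S_VOL) (hHYPP : S_HYPP) (hRES : S_RES) (hDEFN : S_DEFN) (hIDL : S_IDL)
    (hm : 2 ≤ m) (hn : finrank ℝ T = 4 * m) (lam : ℝ →ₗ[k] k)
    (hlam : (TensorProduct.lid k F) (LinearMap.rTensor F lam ε) = 1)
    {κ : Type} [Fintype κ] [DecidableEq κ]
    (φ : MultilinearMap k (fun _ : κ => W) k) (hφ : IsDRBForm K (ξ : ι → (W →ₗ[k] ℂ)) φ)
    (x : Module.End k W) (hx : ∀ u v, b (x u) v + b u (x v) = 0)
    (hxF : ∀ a : F, x * mF k W a = mF k W a * x) (hxδ : x * δ = δ * x)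
    (htr : ∀ a : F, LinearMap.trace k W (x * δ * mF k W a) = 0) : Kills x φ := by
  have hi := inj_i i p hpi
  have hXF : ∀ a : F, x.baseChange ℝ * (mF k W a).baseChange ℝ =
      (mF k W a).baseChange ℝ * x.baseChange ℝ := by
    intro a
    have h2 := congrArg (fun P : Module.End k W => P.baseChange ℝ) (hxF a)
    simp only [bc_mul] at h2
    exact h2
  have hXδ : x.baseChange ℝ * δ.baseChange ℝ = δ.baseChange ℝ * x.baseChange ℝ := by
    have h2 := congrArg (fun P : Module.End k W => P.baseChange ℝ) hxδ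
    simp only [bc_mul] at h2
    exact h2
  have hXe : ∀ v, x.baseChange ℝ (act k F W ε v) = act k F W ε (x.baseChange ℝ v) := fun v =>
    congrArg (fun P : Module.End ℝ (ℝ ⊗[k] W) => P v) (act_comm hA1 _ hXF ε)
  set x₁ : Module.End ℝ T := p ∘ₗ x.baseChange ℝ ∘ₗ i with hx₁
  have hix : ∀ t, i (x₁ t) = x.baseChange ℝ (i t) := by
    intro t
    rw [hx₁, LinearMap.comp_apply, LinearMap.comp_apply, hip, ← hXe, e_i ε i p hpi hip]
  have h1 := ext_mem (K := K) ξ b δ hb hnd hss hend hA1 hA2 σ ε hεσ i p hpi hip hsym hF hδF d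
    hδδ hδb hσd hdF hδ hsig hposT hΛ S3 hPF hCAS hSPLIT hNORM hDU hUA hUE hUB hVOL hHYPP hRES
    hDEFN hIDL hm hn x₁ (by
      intro u v
      rw [bT_apply, bT_apply, hix, hix]
      exact bb_skew b hx _ _) (by
      refine LinearMap.ext fun t => hi ?_
      have h3 := congrArg (fun P : Module.End ℝ (ℝ ⊗[k] W) => P (i t)) hXδ
      simp only [Module.End.mul_apply] at h3
      rw [Module.End.mul_apply, Module.End.mul_apply, hix, i_JT δ hA1 σ ε i p hpi hip hδF,
        i_JT δ hA1 σ ε i p hpi hip hδF, hix, map_smul, h3]) (by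
      have h3 : x₁ * JT σ d δ i p = (Real.sqrt (σ d))⁻¹ •
          (p ∘ₗ ((x * δ).baseChange ℝ ∘ₗ i) : Module.End ℝ T) := by
        refine LinearMap.ext fun t => hi ?_
        rw [Module.End.mul_apply, hix, i_JT δ hA1 σ ε i p hpi hip hδF, LinearMap.smul_apply,
          map_smul, map_smul, LinearMap.comp_apply, LinearMap.comp_apply, bc_mul,
          Module.End.mul_apply, hip, ← hXe, ← d_act δ hA1 hδF]
        rw [e_i ε i p hpi hip]
      have h4 : LinearMap.trace ℝ T (p ∘ₗ ((x * δ).baseChange ℝ ∘ₗ i) : Module.End ℝ T) = 0 := by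
        rw [LinearMap.trace_comp_comm']
        have h5 : (((x * δ).baseChange ℝ ∘ₗ i) ∘ₗ p : Module.End ℝ (ℝ ⊗[k] W)) =
            (x * δ).baseChange ℝ * act k F W ε := by
          refine LinearMap.ext fun v => ?_
          rw [LinearMap.comp_apply, LinearMap.comp_apply, hip, Module.End.mul_apply]
        rw [h5]
        exact trace_act hA1 (x * δ) htr ε
      rw [h3, map_smul, h4, smul_zero])
  have h2 := (kills_bcm_iff (Module.finBasis k W) φ _).1 (h1 κ φ hφ) lam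
  have h3 : cmpE lam (i ∘ₗ x₁ ∘ₗ p : Module.End ℝ (ℝ ⊗[k] W)) = x := by
    refine LinearMap.ext fun w => ?_
    rw [cmpE_apply, LinearMap.comp_apply, LinearMap.comp_apply, hix, hip, hXe,
      LinearMap.baseChange_tmul, cmp_act hA1, hlam, one_smul]
  rw [h3] at h2
  exact h2

end

end Pool.Agent.W516.CMF
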