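import Mathlib
import Pool.Agent.W516.BQ.Final
import Pool.Agent.W516.CMF.Main
import Pool.Agent.W681.CMF.HYPP
import Pool.Agent.W67.CMF.EPS
import Pool.Agent.W67.CMF.IDL
import Pool.Agent.W247.CMF.DIM
import Pool.Agent.W397.CMF.RES
import Pool.Agent.W351.CMF.DEFN

/-!
# De Rham-Betti classes on abelian varieties with multiplication by a CM field
-/

set_option linter.unusedSectionVars false

namespace Pool.Agent.W516.CMF

open Module TensorProduct Pool.Agent.H204R3.SP Pool.Agent.H204R3.GP Pool.Agent.W516.DR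
  Pool.Agent.W516.KC Pool.Agent.W516.K3 Pool.Agent.W32.DK Pool.Agent.W516.KU Pool.Agent.W516.BQ

noncomputable section

section Trace

variable {k F W : Type} [Field k] [Field F] [Algebra k F] [FiniteDimensional k F]
  [AddCommGroup W] [Module k W] [FiniteDimensional k W] [Module F W] [IsScalarTower k F W]

theorem trace_res (f : W →ₗ[F] W) (h : LinearMap.trace F W f = 0) :
    LinearMap.trace k W (f.restrictScalars k) = 0 := by
  have : FiniteDimensional F W := FiniteDimensional.right k F W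
  let b := Module.finBasis k F
  let c := Module.finBasis F W
  rw [LinearMap.trace_eq_matrix_trace k (b.smulTower c)]
  rw [LinearMap.trace_eq_matrix_trace F c] at h
  simp only [Matrix.trace, Matrix.diag_apply, LinearMap.toMatrix_apply] at h ⊢
  rw [Fintype.sum_prod_type]
  simp only [Basis.smulTower_apply, Basis.smulTower_repr, LinearMap.restrictScalars_apply, map_smul,
    Finsupp.smul_apply, smul_eq_mul]
  refine Finset.sum_eq_zero fun i _ => ?_
  have h1 : ∑ j, b.repr (b i * c.repr (f (c j)) j) i =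
      b.repr (b i * ∑ j, c.repr (f (c j)) j) i := by
    rw [Finset.mul_sum, map_sum, Finsupp.finsetSum_apply]
  rw [h1, h, mul_zero, map_zero, Finsupp.zero_apply]

theorem trace_mF (f : W →ₗ[F] W) (h : LinearMap.trace F W f = 0) (a : F) :
    LinearMap.trace k W ((f.restrictScalars k : Module.End k W) * mF k W a) = 0 := by
  have h1 : (f.restrictScalars k : Module.End k W) * mF k W a =
      (a • f).restrictScalars k := by
    refine LinearMap.ext fun w => ?_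
    change f (a • w) = a • f w
    exact map_smul f a w
  rw [h1]
  exact trace_res _ (by rw [map_smul, h, smul_zero])

end Trace

variable {k K : Type} [Field k] [Field K] [CharZero k] [CharZero K] [IsAlgClosed K] [Algebra k K]
  [Algebra k ℂ] [Algebra K ℂ] [IsScalarTower k K ℂ] [Algebra k ℝ] [IsScalarTower k ℝ ℂ]
  {F : Type} [Field F] [Algebra k F] [FiniteDimensional k F]
  {W : Type} [AddCommGroup W] [Module k W] [FiniteDimensional k W] [Nontrivial W]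
  [Module F W] [IsScalarTower k F W]
  {ι : Type} [Fintype ι] [DecidableEq ι]

/-- An eigenvector is fixed by the idempotent. -/
theorem fix_eps (hA1 : ∀ (r : ℝ) (a : F) (s : ℝ) (w : W), act k F W (r ⊗ₜ[k] a) (s ⊗ₜ[k] w) =
    (r * s) ⊗ₜ[k] (a • w)) (σ : F →ₐ[k] ℝ) (ε : ℝ ⊗[k] F) (hε0 : ε ≠ 0) (hε : ε * ε = ε)
    (hεσ : ∀ a : F, ((1 : ℝ) ⊗ₜ[k] a) * ε = ((σ a) ⊗ₜ[k] (1 : F)) * ε) (v : ℝ ⊗[k] W)
    (hv : ∀ a : F, (mF k W a).baseChange ℝ v = σ a • v) : act k F W ε v = v := by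
  let ψ : ℝ ⊗[k] F →ₗ[ℝ] ℝ := LinearMap.liftBaseChange ℝ (σ.toLinearMap : F →ₗ[k] ℝ)
  have hψ : ∀ (r : ℝ) (a : F), ψ (r ⊗ₜ[k] a) = r * σ a := fun r a => by
    rw [← smul_eq_mul]
    exact LinearMap.liftBaseChange_tmul ..
  have h1 : ∀ y, act k F W y v = ψ y • v := by
    intro y
    induction y using TensorProduct.induction_on with
    | zero => rw [map_zero, map_zero, LinearMap.zero_apply, zero_smul]
    | add x y hx hy => rw [map_add, LinearMap.add_apply, hx, hy, map_add, add_smul]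
    | tmul r a => rw [act_real hA1, LinearMap.smul_apply, hv, smul_smul, hψ]
  have h2 : ∀ y, y * ε = ψ y • ε := by
    intro y
    induction y using TensorProduct.induction_on with
    | zero => rw [zero_mul, map_zero, zero_smul]
    | add x y hx hy => rw [add_mul, hx, hy, map_add, add_smul]
    | tmul r a =>
      have h3 : r ⊗ₜ[k] a = r • ((1 : ℝ) ⊗ₜ[k] a) := by
        rw [TensorProduct.smul_tmul', smul_eq_mul, mul_one]
      have h4 : (σ a) ⊗ₜ[k] (1 : F) = σ a • (1 : ℝ ⊗[k] F) := by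
        rw [Algebra.TensorProduct.one_def, TensorProduct.smul_tmul', smul_eq_mul, mul_one]
      rw [hψ, h3, smul_mul_assoc, hεσ, h4, smul_mul_assoc, one_mul, smul_smul]
  have h3 : ψ ε = 1 := by
    have h4 : (ψ ε - 1) • ε = 0 := by rw [sub_smul, ← h2, hε, one_smul, sub_self]
    exact sub_eq_zero.1 ((smul_eq_zero.1 h4).resolve_right hε0)
  rw [h1, h3, one_smul]

/-- The theorem for a symmetric form. -/
theorem kills_sym (ξ : Basis ι ℂ (W →ₗ[k] ℂ)) (b : W →ₗ[k] W →ₗ[k] k) (δ : Module.End k W)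
    (hb : IsDRBForm K (ξ : ι → (W →ₗ[k] ℂ)) (one2 b)) (hnd : ∀ u, (∀ v, b u v = 0) → u = 0)
    (hss : DeRhamBettiSemisimple K (ξ : ι → (W →ₗ[k] ℂ)))
    (hend : ∀ P : Module.End k W, IsDeRhamBettiEnd K (ξ : ι → (W →ₗ[k] ℂ)) P →
      ∃ a c : F, ∀ u, P u = a • u + c • δ u)
    (σ : F →ₐ[k] ℝ) (hsym : ∀ u v, b u v = b v u)
    (hF : ∀ (a : F) u v, b (a • u) v = b u (a • v)) (hδF : ∀ (a : F) u, δ (a • u) = a • δ u)
    (d : F) (hδδ : ∀ u, δ (δ u) = -(d • u)) (hδb : ∀ u v, b (δ u) v = -b u (δ v))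
    (hσd : 0 < σ d)
    (hdF : ∀ a : F, IsDeRhamBettiEnd K (ξ : ι → (W →ₗ[k] ℂ)) (mF k W a))
    (hδ : IsDeRhamBettiEnd K (ξ : ι → (W →ₗ[k] ℂ)) δ)
    (hsig : SignatureTwo (bx ℝ b))
    (hpos : ∃ v, (∀ a : F, (mF k W a).baseChange ℝ v = σ a • v) ∧ 0 < bx ℝ b v v)
    {m : ℕ} (hm : 2 ≤ m) (hn : finrank F W = 4 * m)
    (hΛ : ∀ φ : MultilinearMap k (fun _ : Fin m × Fin 2 => W) k,
      IsDRBForm K (ξ : ι → (W →ₗ[k] ℂ)) φ → IsSesqui δ φ → IsFLinear k F φ →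
      ∀ x : Module.End k W, (∀ u v, b (x u) v + b u (x v) = 0) →
      (∀ a : F, x * mF k W a = mF k W a * x) → x * δ = δ * x → Kills x φ)
    {κ : Type} [Fintype κ] [DecidableEq κ]
    (φ : MultilinearMap k (fun _ : κ => W) k) (hφ : IsDRBForm K (ξ : ι → (W →ₗ[k] ℂ)) φ)
    (x : Module.End k W) (hx : ∀ u v, b (x u) v + b u (x v) = 0)
    (hxF : ∀ a : F, x * mF k W a = mF k W a * x) (hxδ : x * δ = δ * x)
    (htr : ∀ a : F, LinearMap.trace k W (x * δ * mF k W a) = 0) : Kills x φ := by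
  obtain ⟨ε, hε0, hε, hεσ⟩ := Pool.Agent.W67.CMF.T_EPS k F σ
  obtain ⟨hA1, hA2, h3⟩ := Pool.Agent.W247.CMF.T_DIM k F W
  obtain ⟨hdim, hlam⟩ := h3 σ ε hε0 hε hεσ
  obtain ⟨lam, hlam1⟩ := hlam 1
  obtain ⟨v, hvF, hv⟩ := hpos
  have hve : act k F W ε v = v := fix_eps hA1 σ ε hε0 hε hεσ v hvF
  obtain ⟨T, i1, i2, i3, i, p, hip, hpi, hdT, hvT⟩ : ∃ (T : Type) (_ : AddCommGroup T)
      (_ : Module ℝ T) (_ : FiniteDimensional ℝ T) (i : T →ₗ[ℝ] ℝ ⊗[k] W)
      (p : ℝ ⊗[k] W →ₗ[ℝ] T), (∀ v, i (p v) = act k F W ε v) ∧ (∀ t, p (i t) = t) ∧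
      finrank ℝ T = 4 * m ∧ ∃ t, i t = v := by
    refine ⟨LinearMap.range (act k F W ε), inferInstance, inferInstance, inferInstance,
      (LinearMap.range (act k F W ε)).subtype, (act k F W ε).rangeRestrict, fun v => rfl, ?_,
      by rw [hdim, hn], ⟨v, ⟨v, hve⟩⟩, rfl⟩
    rintro ⟨_, ⟨w, rfl⟩⟩
    apply Subtype.ext
    change act k F W ε (act k F W ε w) = act k F W ε w
    rw [← Module.End.mul_apply, ← hA2, hε]
  obtain ⟨t, ht⟩ := hvT
  have hposT : ∃ t, 0 < bT (bx ℝ b) i t t := ⟨t, by rw [bT_apply, ht]; exact hv⟩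
  exact kills_su (K := K) ξ b δ hb hnd hss hend hA1 hA2 σ ε hεσ i p hpi hip hsym hF hδF d
    hδδ hδb hσd hdF hδ hsig hposT hΛ p_kill p_pf p_cas p_split p_norm
    p_du p_ua p_ue p_ub Pool.Agent.W578.BQ.T_VOL Pool.Agent.W681.CMF.T_HYPP
    Pool.Agent.W397.CMF.T_RES Pool.Agent.W351.CMF.T_DEFN Pool.Agent.W67.CMF.T_IDL hm
    hdT lam hlam1 φ hφ x hx hxF hxδ htr

/-- The theorem for an abelian variety. -/
theorem kills_abelian {ν : Type} [Fintype ν] [DecidableEq ν] (η : Basis ν ℂ (W →ₗ[k] ℂ)) {τ : ℂ}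
    (hτ : τ ≠ 0) (ω : W →ₗ[k] W →ₗ[k] k) (halt : ∀ v, ω v v = 0)
    (hnd : ∀ u, (∀ v, ω u v = 0) → u = 0)
    (hωF : ∀ (a : F) u v, ω (a • u) v = ω u (a • v))
    (δ : W →ₗ[F] W) (d : F) (hδδ : ∀ u, δ (δ u) = -(d • u))
    (hωδ : ∀ u v, ω (δ u) v = -ω u (δ v)) (σ : F →ₐ[k] ℝ) (hσd : 0 < σ d)
    (hsig : SignatureTwo (bx ℝ (ω ∘ₗ δ.restrictScalars k)))
    (hpos : ∃ v, (∀ a : F, (Algebra.lsmul k k W a).baseChange ℝ v = σ a • v) ∧
      0 < bx ℝ (ω ∘ₗ δ.restrictScalars k) v v)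
    (hω : IsDeRhamBettiBilinear K (η : ν → (W →ₗ[k] ℂ)) τ ω)
    (hdF : ∀ a : F, IsDeRhamBettiEnd K (η : ν → (W →ₗ[k] ℂ)) (Algebra.lsmul k k W a))
    (hδ : IsDeRhamBettiEnd K (η : ν → (W →ₗ[k] ℂ)) (δ.restrictScalars k))
    (hss : DeRhamBettiSemisimple K (η : ν → (W →ₗ[k] ℂ)))
    (hend : ∀ P : W →ₗ[k] W, IsDeRhamBettiEnd K (η : ν → (W →ₗ[k] ℂ)) P →
      ∃ a c : F, ∀ u, P u = a • u + c • δ u)
    {m : ℕ} (hm : 2 ≤ m) (hn : finrank F W = 4 * m)
    (hΛ : ∀ φ : MultilinearMap k (fun _ : Fin m × Fin 2 => W) k,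
      IsDeRhamBettiForm K (η : ν → (W →ₗ[k] ℂ)) τ m φ → IsSesqui (δ.restrictScalars k) φ →
      IsFLinear k F φ → ∀ x : W →ₗ[F] W, (∀ u v, ω (x u) v + ω u (x v) = 0) →
      x ∘ₗ δ = δ ∘ₗ x → Kills (x.restrictScalars k) φ)
    (r : ℕ) (φ : MultilinearMap k (fun _ : Fin r × Fin 2 => W) k)
    (hφ : IsDeRhamBettiForm K (η : ν → (W →ₗ[k] ℂ)) τ r φ)
    (x : W →ₗ[F] W) (hx : ∀ u v, ω (x u) v + ω u (x v) = 0) (hxδ : x ∘ₗ δ = δ ∘ₗ x)
    (htr : LinearMap.trace F W (x ∘ₗ δ) = 0) : Kills (x.restrictScalars k) φ := by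
  obtain ⟨s, hs2⟩ := IsAlgClosed.exists_pow_nat_eq τ (n := 2) two_pos
  have hs : s ≠ 0 := by
    rintro rfl
    rw [zero_pow two_ne_zero] at hs2
    exact hτ hs2.symm
  subst hs2
  set δ₀ : Module.End k W := δ.restrictScalars k with hδ₀
  have hδa : ∀ u, δ₀ u = δ u := fun u => rfl
  have hskew : ∀ u v, ω u v = -ω v u := by
    intro u v
    have h1 := halt (u + v)
    simp only [map_add, LinearMap.add_apply, halt, zero_add, add_zero] at h1
    linear_combination h1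
  have hd0 : d ≠ 0 := by
    rintro rfl
    rw [map_zero] at hσd
    exact lt_irrefl _ hσd
  have hsym : ∀ u v, (ω ∘ₗ δ₀) u v = (ω ∘ₗ δ₀) v u := by
    intro u v
    rw [LinearMap.comp_apply, LinearMap.comp_apply, hδa, hδa, hωδ, hskew u (δ v), neg_neg]
  have hδinj : ∀ u, δ u = 0 → u = 0 := by
    intro u hu
    have h1 := hδδ u
    rw [hu, map_zero] at h1
    have h2 : d • u = 0 := by rw [← neg_eq_zero]; exact h1.symm
    exact (smul_eq_zero.1 h2).resolve_left hd0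
  have hnd' : ∀ u, (∀ v, (ω ∘ₗ δ₀) u v = 0) → u = 0 := by
    intro u hu
    exact hδinj u (hnd _ hu)
  have hδb : ∀ u v, (ω ∘ₗ δ₀) (δ₀ u) v = -(ω ∘ₗ δ₀) u (δ₀ v) := by
    intro u v
    rw [LinearMap.comp_apply, LinearMap.comp_apply, hδa (δ₀ u), hωδ]
    rfl
  have hFb : ∀ (a : F) u v, (ω ∘ₗ δ₀) (a • u) v = (ω ∘ₗ δ₀) u (a • v) := by
    intro a u v
    rw [LinearMap.comp_apply, LinearMap.comp_apply, hδa, hδa, map_smul, hωF]
  have hb : IsDRBForm K (nrm η s hs : ν → (W →ₗ[k] ℂ)) (one2 (ω ∘ₗ δ₀)) := by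
    rw [← form_iff]
    exact one2_drb _ _ _ (drb_comp_end (η : ν → (W →ₗ[k] ℂ)) (s ^ 2) ω hω δ₀ hδ)
  -- comparison of the conditions for `ω` and `ω (δ u) v`
  have hcmp : ∀ x : W →ₗ[k] W, (∀ (a : F) u, x (a • u) = a • x u) → (∀ u, x (δ u) = δ (x u)) →
      ((∀ u v, ω (x u) v + ω u (x v) = 0) ↔
        ∀ u v, (ω ∘ₗ δ₀) (x u) v + (ω ∘ₗ δ₀) u (x v) = 0) := by
    intro x hxF hx
    constructor
    · intro h u v
      rw [LinearMap.comp_apply, LinearMap.comp_apply, hδa, hδa, ← hx]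
      exact h (δ u) v
    · intro h u v
      have h1 := h (δ (d⁻¹ • u)) v
      rw [LinearMap.comp_apply, LinearMap.comp_apply, hδa, hδa, hx, hδδ, hδδ, hxF, smul_smul,
        smul_smul, mul_inv_cancel₀ hd0, one_smul, one_smul, map_neg, map_neg,
        LinearMap.neg_apply, LinearMap.neg_apply] at h1
      linear_combination -h1
  have hxF : ∀ a : F, (x.restrictScalars k : Module.End k W) * mF k W a =
      mF k W a * x.restrictScalars k := fun a => LinearMap.ext fun u => map_smul x a u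
  have hxδ' : (x.restrictScalars k : Module.End k W) * δ₀ = δ₀ * x.restrictScalars k :=
    LinearMap.ext fun u => congrArg (fun P : W →ₗ[F] W => P u) hxδ
  refine kills_sym (K := K) (F := F) (nrm η s hs) (ω ∘ₗ δ₀) δ₀ hb hnd' ((ss_iff η s hs).2 hss)
    (fun P hP => hend P ((end_iff η s hs P).1 hP)) σ hsym hFb (fun a u => map_smul δ a u) d hδδ
    hδb hσd (fun a => (end_iff η s hs _).2 (hdF a)) ((end_iff η s hs δ₀).2 hδ) hsig hpos hm hn ?_
    φ ((form_iff η s hs φ).1 hφ) _ ((hcmp _ (fun a u => map_smul x a u)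
      (fun u => congrArg (fun P : W →ₗ[F] W => P u) hxδ)).1 hx) hxF hxδ' ?_
  · intro ψ hψ hψs hψF y hy hyF hyδ
    have hyF' : ∀ (a : F) u, y (a • u) = a • y u := fun a u =>
      congrArg (fun P : Module.End k W => P u) (hyF a)
    have hyδ' : ∀ u, y (δ u) = δ (y u) := fun u => congrArg (fun P : Module.End k W => P u) hyδ
    let y' : W →ₗ[F] W := { y with map_smul' := fun a u => hyF' a u }
    exact hΛ ψ ((form_iff η s hs ψ).2 hψ) hψs hψF y' ((hcmp y hyF' hyδ').2 hy)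
      (LinearMap.ext fun u => hyδ' u)
  · intro a
    exact trace_mF (x ∘ₗ δ) htr a

end

end Pool.Agent.W516.CMF
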